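import Pool.Agent.AT.G.Geom

/-!
# The shapes around `a_0 a_2`
-/

set_option autoImplicit false

namespace Pool.Agent.AT.G

open Pool.Agent.S3 Pool.Agent.S3.G
open Complex
open Pool.Agent.H63.VC3 (hh)
open Pool.Agent.H63.VC7 (inc shx shy sX sY)
open Pool.Agent.H63.VC7.Hyp Pool.Agent.AT.Hyp
open scoped BigOperators

theorem cX_eq {y v w Q Q' : ℂ} (h : SV y v w Q Q') : cX y v w = Xe v w Q Q' := by
  have hy := h.cy
  have hv := h.cv
  have hw := h.cw
  have n1 := h.sv
  have n2 := h.sv'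
  have n3 := h.sw
  have n4 := h.sw'
  funext k
  fin_cases k
  · show I * exp (-(Real.pi * I * w)) * sin (Real.pi * (y + v)) * cos (Real.pi * w) /
      (cos (Real.pi * v) * cos (Real.pi * y)) = I * exp (-(Real.pi * I * w) + Q)
    rw [exp_add, div_eq_iff (mul_ne_zero hv hy)]
    linear_combination I * exp (-(Real.pi * I * w)) * n1
  · show I * exp (Real.pi * I * v) * sin (Real.pi * (y - w)) * cos (Real.pi * v) /
      (cos (Real.pi * w) * cos (Real.pi * y)) = I * exp (Real.pi * I * v - Q')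
    rw [sub_eq_add_neg _ Q', exp_add, div_eq_iff (mul_ne_zero hw hy)]
    linear_combination I * exp (Real.pi * I * v) * n4
  · show I * exp (Real.pi * I * w) * sin (Real.pi * (y - v)) * cos (Real.pi * w) /
      (cos (Real.pi * v) * cos (Real.pi * y)) = I * exp (Real.pi * I * w - Q)
    rw [sub_eq_add_neg _ Q, exp_add, div_eq_iff (mul_ne_zero hv hy)]
    linear_combination I * exp (Real.pi * I * w) * n2
  · show I * exp (-(Real.pi * I * v)) * sin (Real.pi * (y + w)) * cos (Real.pi * v) /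
      (cos (Real.pi * w) * cos (Real.pi * y)) = I * exp (-(Real.pi * I * v) + Q')
    rw [exp_add, div_eq_iff (mul_ne_zero hw hy)]
    linear_combination I * exp (-(Real.pi * I * v)) * n3

theorem cY_eq {y v w Q Q' : ℂ} (h : SV y v w Q Q') : cY y v w = Ye v w Q Q' := by
  have key : ∀ A B C : ℂ, A - B = C → -exp A / (I * exp B) = I * exp C := by
    intro A B C e
    have h1 : exp A = exp B * exp C := by rw [← exp_add]; congr 1; linear_combination e
    have h2 := exp_ne_zero B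
    have h3 := I_ne_zero
    rw [h1, div_eq_iff (mul_ne_zero h3 h2)]
    linear_combination -(exp B * exp C) * I_sq
  funext k
  fin_cases k
  · show -exp (-(2 * Real.pi * I * w)) / cX y v w 0 = I * exp (-(Real.pi * I * w) - Q)
    rw [cX_eq h]
    exact key _ _ _ (by show _ - (-(Real.pi * I * w) + Q) = _; ring)
  · show -exp (2 * Real.pi * I * v) / cX y v w 1 = I * exp (Real.pi * I * v + Q')
    rw [cX_eq h]
    exact key _ _ _ (by show _ - (Real.pi * I * v - Q') = _; ring)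
  · show -exp (2 * Real.pi * I * w) / cX y v w 2 = I * exp (Real.pi * I * w + Q)
    rw [cX_eq h]
    exact key _ _ _ (by show _ - (Real.pi * I * w - Q) = _; ring)
  · show -exp (-(2 * Real.pi * I * v)) / cX y v w 3 = I * exp (-(Real.pi * I * v) - Q')
    rw [cX_eq h]
    exact key _ _ _ (by show _ - (-(Real.pi * I * v) + Q') = _; ring)

/-- The data of the algebra of a block: `p = exp (π i v)`, `r = exp (π i w)`, `P = exp Q`,
`R = exp Q'`, `c = cos (π v)`, `d = cos (π w)`. -/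
structure Alg (X Y : Fin 4 → ℂ) (p r P R c d : ℂ) : Prop where
  O : Oct X Y
  p0 : p ≠ 0
  r0 : r ≠ 0
  P0 : P ≠ 0
  R0 : R ≠ 0
  c0 : c ≠ 0
  d0 : d ≠ 0
  hc : 2 * c * p = 1 + p ^ 2
  hd : 2 * d * r = 1 + r ^ 2
  x0 : X 0 = I * P / r
  x1 : X 1 = I * p / R
  y0 : Y 0 = I / (r * P)
  y1 : Y 1 = I * p * R
  x2 : X 2 = I * r / P
  x3 : X 3 = I * R / p
  y2 : Y 2 = I * r * P
  y3 : Y 3 = I / (p * R)

theorem alg_of {y v w Q Q' : ℂ} (h : SV y v w Q Q') (hp : PosC v w Q Q') :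
    Alg (Xe v w Q Q') (Ye v w Q Q') (exp (Real.pi * I * v)) (exp (Real.pi * I * w)) (exp Q)
      (exp Q') (cos (Real.pi * v)) (cos (Real.pi * w)) := by
  have hc : ∀ x : ℂ, 2 * cos (Real.pi * x) * exp (Real.pi * I * x) =
      1 + exp (Real.pi * I * x) ^ 2 := by
    intro x
    have e2 : exp (Real.pi * I * x) * exp (-(Real.pi * I * x)) = 1 := by
      rw [← exp_add]; simp
    rw [two_cos_eq]
    linear_combination e2
  exact ⟨oct_of h hp, exp_ne_zero _, exp_ne_zero _, exp_ne_zero _, exp_ne_zero _, h.cv, h.cw,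
    hc v, hc w, Xe0 _ _ _ _, Xe1 _ _ _ _, Ye0 _ _ _ _, Ye1 _ _ _ _, Xe2 _ _ _ _, Xe3 _ _ _ _,
    Ye2 _ _ _ _, Ye3 _ _ _ _⟩

namespace Alg

variable {X Y : Fin 4 → ℂ} {p r P R c d : ℂ}

theorem pp (A : Alg X Y p r P R c d) : p ^ 2 = -(X 1 * (1 + X 0)) / (1 - X 0) := by
  have h1 : X 1 * Y 1 = -p ^ 2 := by
    rw [A.x1, A.y1]
    have := A.R0
    field_simp
    linear_combination p ^ 2 * I_sq
  rw [A.O.Y1] at h1
  have : p ^ 2 = -(X 1 * ((1 + X 0) / (1 - X 0))) := by rw [h1, neg_neg]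
  rw [this]
  ring

theorem rr (A : Alg X Y p r P R c d) : r ^ 2 = -(1 - X 1) / (X 0 * (1 + X 1)) := by
  have hx0 := up_ne (A.O.pX 0)
  have ha1 := one_add_ne (A.O.pX 1)
  have hb1 := one_sub_ne (A.O.pX 1)
  have h1 : X 0 * Y 0 * r ^ 2 = -1 := by
    rw [A.x0, A.y0]
    have := A.P0
    have := A.r0
    field_simp
    exact I_sq
  rw [A.O.Y0] at h1
  field_simp at h1 ⊢
  linear_combination h1

theorem p1 (A : Alg X Y p r P R c d) :
    1 + p ^ 2 = (1 - X 0 - X 1 - X 0 * X 1) / (1 - X 0) := by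
  have hb0 := one_sub_ne (A.O.pX 0)
  rw [A.pp]
  field_simp
  ring

theorem r1 (A : Alg X Y p r P R c d) :
    1 + r ^ 2 = -(1 - X 0 - X 1 - X 0 * X 1) / (X 0 * (1 + X 1)) := by
  have hx0 := up_ne (A.O.pX 0)
  have ha1 := one_add_ne (A.O.pX 1)
  rw [A.rr]
  field_simp
  ring

theorem hV (A : Alg X Y p r P R c d) : 1 - X 0 - X 1 - X 0 * X 1 ≠ 0 := by
  intro h0
  have h1 := A.p1
  have h2 := A.hc
  rw [h0, zero_div] at h1
  rw [h1] at h2
  exact mul_ne_zero (mul_ne_zero two_ne_zero A.c0) A.p0 h2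

/-- `cos (π v) / cos (π w)` -/
theorem ratio (A : Alg X Y p r P R c d) :
    c / d = -(r * (X 0 * (1 + X 1))) / (p * (1 - X 0)) := by
  have hx0 := up_ne (A.O.pX 0)
  have ha1 := one_add_ne (A.O.pX 1)
  have hb0 := one_sub_ne (A.O.pX 0)
  have hV := A.hV
  have e1 : c = (1 + p ^ 2) / (2 * p) := by
    rw [eq_div_iff (mul_ne_zero two_ne_zero A.p0)]
    linear_combination A.hc
  have e2 : d = (1 + r ^ 2) / (2 * r) := by
    rw [eq_div_iff (mul_ne_zero two_ne_zero A.r0)]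
    linear_combination A.hd
  have p0 := A.p0
  have r0 := A.r0
  rw [e1, e2, A.p1, A.r1]
  field_simp

theorem ratio' (A : Alg X Y p r P R c d) :
    d / c = -(p * (1 - X 0)) / (r * (X 0 * (1 + X 1))) := by
  have h := A.ratio
  rw [← inv_div, h, inv_div, div_neg, neg_div]

/-! The eight shapes. -/

theorem t0 (A : Alg X Y p r P R c d) : shp (X 1) 1 * shp (X 0) 2 = I * (d / c) / (p * P) := by
  have O := A.O
  have hx0 := up_ne (O.pX 0)
  have ha1 := one_add_ne (O.pX 1)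
  have hb0 := one_sub_ne (O.pX 0)
  have hb1 := one_sub_ne (O.pX 1)
  have p0 := A.p0
  have r0 := A.r0
  have P0 := A.P0
  have hy := A.y0
  rw [O.Y0] at hy
  have e : I / (r * P) * (1 - X 1) = 1 + X 1 := by
    rw [← hy]
    field_simp
  rw [O.sX02, shp_1, A.ratio']
  field_simp at e ⊢
  linear_combination e

theorem t1 (A : Alg X Y p r P R c d) : shp (X 1) 2 * shp (X 0) 1 = I * (c / d) * r * R := by
  have O := A.O
  have hx0 := up_ne (O.pX 0)
  have hx1 := up_ne (O.pX 1)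
  have ha1 := one_add_ne (O.pX 1)
  have hb0 := one_sub_ne (O.pX 0)
  have p0 := A.p0
  have r0 := A.r0
  have h3 := A.x3
  rw [O.X3] at h3
  have hr := A.rr
  have e1 : I * R = -p / X 1 := by
    rw [eq_div_iff hx1]
    field_simp at h3
    linear_combination -h3
  have e2 : r ^ 2 * (X 0 * (1 + X 1)) = -(1 - X 1) := by
    rw [hr]
    field_simp
  rw [O.sX12, shp_1, A.ratio]
  have e3 : I * (-(r * (X 0 * (1 + X 1))) / (p * (1 - X 0))) * r * R =
      -(r ^ 2 * (X 0 * (1 + X 1))) * (I * R) / (p * (1 - X 0)) := by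
    field_simp
  rw [e3, e2, e1]
  field_simp

theorem t2 (A : Alg X Y p r P R c d) : shp (X 3) 2 * shp (X 2) 1 = I * (c / d) / (r * R) := by
  have O := A.O
  have hx0 := up_ne (O.pX 0)
  have hx1 := up_ne (O.pX 1)
  have ha0 := one_add_ne (O.pX 0)
  have ha1 := one_add_ne (O.pX 1)
  have hb0 := one_sub_ne (O.pX 0)
  have p0 := A.p0
  have r0 := A.r0
  have R0 := A.R0
  have h3 := A.y3
  rw [O.Y3] at h3
  have e1 : I / (p * R) = -(1 - X 0) / (1 + X 0) := h3.symm
  rw [O.sX32, O.sX21, A.ratio]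
  have e3 : I * (-(r * (X 0 * (1 + X 1))) / (p * (1 - X 0))) / (r * R) =
      -(X 0 * (1 + X 1)) * (I / (p * R)) / (1 - X 0) := by
    field_simp
  rw [e3, e1]
  field_simp

theorem t3 (A : Alg X Y p r P R c d) : shp (X 3) 1 * shp (X 2) 2 = I * (d / c) * p * P := by
  have O := A.O
  have hx0 := up_ne (O.pX 0)
  have hx1 := up_ne (O.pX 1)
  have ha0 := one_add_ne (O.pX 0)
  have ha1 := one_add_ne (O.pX 1)
  have hb0 := one_sub_ne (O.pX 0)
  have p0 := A.p0
  have r0 := A.r0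
  have h3 := A.x0
  have e1 : I * P = r * X 0 := by
    rw [h3]
    field_simp
  have e2 : p ^ 2 * (1 - X 0) = -(X 1 * (1 + X 0)) := by
    rw [A.pp]
    field_simp
  rw [O.sX31, O.sX22, A.ratio']
  have e3 : I * (-(p * (1 - X 0)) / (r * (X 0 * (1 + X 1)))) * p * P =
      -(p ^ 2 * (1 - X 0)) * (I * P) / (r * (X 0 * (1 + X 1))) := by
    field_simp
  rw [e3, e2, e1]
  field_simp

theorem u0 (A : Alg X Y p r P R c d) : shp (Y 1) 2 * shp (Y 0) 1 = I * (c / d) * P / p := by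
  have O := A.O
  have hx0 := up_ne (O.pX 0)
  have hx1 := up_ne (O.pX 1)
  have ha0 := one_add_ne (O.pX 0)
  have ha1 := one_add_ne (O.pX 1)
  have hb0 := one_sub_ne (O.pX 0)
  have p0 := A.p0
  have r0 := A.r0
  have e1 : I * P = r * X 0 := by
    rw [A.x0]
    field_simp
  have e2 : r ^ 2 * (X 0 * (1 + X 1)) = -(1 - X 1) := by
    rw [A.rr]
    field_simp
  have e4 : p ^ 2 * (1 - X 0) = -(X 1 * (1 + X 0)) := by
    rw [A.pp]
    field_simp
  rw [O.sY12, O.sY01, A.ratio]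
  have e3 : I * (-(r * (X 0 * (1 + X 1))) / (p * (1 - X 0))) * P / p =
      -(r * (X 0 * (1 + X 1))) * (I * P) / (p ^ 2 * (1 - X 0)) := by
    field_simp
  rw [e3, e4, e1]
  have e5 : -(r * (X 0 * (1 + X 1))) * (r * X 0) = -(r ^ 2 * (X 0 * (1 + X 1))) * X 0 := by ring
  rw [e5, e2]
  field_simp

theorem u1 (A : Alg X Y p r P R c d) : shp (Y 1) 1 * shp (Y 0) 2 = I * (d / c) * r / R := by
  have O := A.O
  have hx0 := up_ne (O.pX 0)
  have hx1 := up_ne (O.pX 1)
  have ha0 := one_add_ne (O.pX 0)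
  have ha1 := one_add_ne (O.pX 1)
  have hb0 := one_sub_ne (O.pX 0)
  have p0 := A.p0
  have r0 := A.r0
  have R0 := A.R0
  have e1 : I * p / R = X 1 := A.x1.symm
  rw [O.sY11, O.sY02, A.ratio']
  have e3 : I * (-(p * (1 - X 0)) / (r * (X 0 * (1 + X 1)))) * r / R =
      -(1 - X 0) / (X 0 * (1 + X 1)) * (I * p / R) := by
    field_simp
  rw [e3, e1]
  field_simp

theorem u2 (A : Alg X Y p r P R c d) : shp (Y 3) 1 * shp (Y 2) 2 = I * (d / c) * R / r := by
  have O := A.O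
  have hx0 := up_ne (O.pX 0)
  have hx1 := up_ne (O.pX 1)
  have ha0 := one_add_ne (O.pX 0)
  have ha1 := one_add_ne (O.pX 1)
  have hb0 := one_sub_ne (O.pX 0)
  have hb1 := one_sub_ne (O.pX 1)
  have p0 := A.p0
  have r0 := A.r0
  have e1 : I * p * R = (1 + X 0) / (1 - X 0) := by
    rw [← A.y1, O.Y1]
  have e2 : r ^ 2 * (X 0 * (1 + X 1)) = -(1 - X 1) := by
    rw [A.rr]
    field_simp
  rw [O.sY31, O.sY22, A.ratio']
  have e3 : I * (-(p * (1 - X 0)) / (r * (X 0 * (1 + X 1)))) * R / r =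
      -(1 - X 0) * (I * p * R) / (r ^ 2 * (X 0 * (1 + X 1))) := by
    field_simp
  rw [e3, e1, e2]
  field_simp

theorem u3 (A : Alg X Y p r P R c d) : shp (Y 3) 2 * shp (Y 2) 1 = I * (c / d) * p / P := by
  have O := A.O
  have hx0 := up_ne (O.pX 0)
  have hx1 := up_ne (O.pX 1)
  have ha0 := one_add_ne (O.pX 0)
  have ha1 := one_add_ne (O.pX 1)
  have hb0 := one_sub_ne (O.pX 0)
  have p0 := A.p0
  have r0 := A.r0
  have P0 := A.P0
  have e1 : I * r / P = -1 / X 0 := by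
    rw [← A.x2, O.X2]
  rw [O.sY32, O.sY21, A.ratio]
  have e3 : I * (-(r * (X 0 * (1 + X 1))) / (p * (1 - X 0))) * p / P =
      -(X 0 * (1 + X 1)) / (1 - X 0) * (I * r / P) := by
    field_simp
  rw [e3, e1]
  field_simp

end Alg

/-! ### The shapes around `a_0 a_2` -/

theorem sX_of {y v w Q Q' : ℂ} (h : SV y v w Q Q') :
    sX y v = I * (cos (Real.pi * w) / cos (Real.pi * v)) / (exp (Real.pi * I * v) * exp Q) := by
  have hy := h.cy
  have hv := h.cv
  have hw := h.cw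
  have e : sin (Real.pi * (y + v)) = exp Q * (cos (Real.pi * v) * cos (Real.pi * y)) /
      cos (Real.pi * w) := by
    rw [eq_div_iff hw]
    exact h.sv
  have h1 := exp_ne_zero Q
  have h2 := exp_ne_zero (Real.pi * I * v)
  unfold sX
  rw [e, exp_neg]
  field_simp

theorem sY_of {y v w Q Q' : ℂ} (h : SV y v w Q Q') :
    sY y v = I * (cos (Real.pi * v) / cos (Real.pi * w)) * exp Q / exp (Real.pi * I * v) := by
  have hy := h.cy
  have hv := h.cv
  have hw := h.cw
  have e : sin (Real.pi * (y + v)) = exp Q * (cos (Real.pi * v) * cos (Real.pi * y)) /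
      cos (Real.pi * w) := by
    rw [eq_div_iff hw]
    exact h.sv
  have h1 := exp_ne_zero Q
  have h2 := exp_ne_zero (Real.pi * I * v)
  unfold sY
  rw [e, exp_neg]
  field_simp

theorem SV.neg_right {y v w Q Q' : ℂ} (h : SV y v w Q Q') : SV y v (-w) Q (-Q') :=
  h.symm.neg_left.symm

variable {m p : ℕ} {s t : Fin m → Fin p} {a : Fin p → ℤ} {y : Fin m → ℂ} {v : Fin p → ℂ}

theorem CritS.cX_XX (h : CritS s t a y v) (j : Fin m) :
    XX (y j) (v (s j)) (v (t j)) = cX (y j) (v (s j)) (v (t j)) := (cX_eq (h.sv j)).symm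

theorem CritS.cY_YY (h : CritS s t a y v) (j : Fin m) :
    YY (y j) (v (s j)) (v (t j)) = cY (y j) (v (s j)) (v (t j)) := (cY_eq (h.sv j)).symm

/-- **The hyperbolic structure.** -/
theorem CritS.isGeom_c (h : CritS s t a y v) :
    Hyp.IsGeom s t a (fun j => cX (y j) (v (s j)) (v (t j)))
      (fun j => cY (y j) (v (s j)) (v (t j))) := by
  have h1 := h.isGeom
  have e1 : (fun j => XX (y j) (v (s j)) (v (t j))) = fun j => cX (y j) (v (s j)) (v (t j)) :=
    funext fun j => h.cX_XX j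
  have e2 : (fun j => YY (y j) (v (s j)) (v (t j))) = fun j => cY (y j) (v (s j)) (v (t j)) :=
    funext fun j => h.cY_YY j
  rwa [e1, e2] at h1

theorem im_half_sum (v w q : ℂ) (hs : Real.pi * |v.re| + Real.pi * |w.re| + |q.im| < Real.pi) :
    |((Real.pi * I * v - Real.pi * I * w) + q).im| < Real.pi ∧
    |((Real.pi * I * v + Real.pi * I * w) + q).im| < Real.pi ∧
    |(-(Real.pi * I * v - Real.pi * I * w) + q).im| < Real.pi ∧
    |(-(Real.pi * I * v + Real.pi * I * w) + q).im| < Real.pi := by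
  have e1 : |Real.pi * v.re| = Real.pi * |v.re| := by rw [abs_mul, abs_of_pos Real.pi_pos]
  have e2 : |Real.pi * w.re| = Real.pi * |w.re| := by rw [abs_mul, abs_of_pos Real.pi_pos]
  rw [← e1, ← e2] at hs
  have a1 := abs_le.1 (le_refl |Real.pi * v.re|)
  have a2 := abs_le.1 (le_refl |Real.pi * w.re|)
  have a3 := abs_le.1 (le_refl |q.im|)
  simp only [add_im, sub_im, neg_im, im_pi_I_mul, abs_lt]
  refine ⟨⟨?_, ?_⟩, ⟨?_, ?_⟩, ⟨?_, ?_⟩, ⟨?_, ?_⟩⟩ <;> linarith

/-- The input of the computation of the complex volume. -/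
theorem CritS.critT (h : CritS s t a y v) : CritT s t a y v where
  st := h.st
  ne := h.ne
  blk := fun j => by
    have hp := h.posC j
    have hi := im_half_sum _ _ _ (h.str j)
    have hy := h.hy j
    have hG := h.isGeom_c
    have hpi := Real.pi_pos
    have m1 : ∀ x : ℂ, (he (y j - x) - he (y j + x)) = ((-2 : ℝ) : ℂ) * mq (y j) x := by
      intro x
      unfold mq
      push_cast
      ring
    refine ⟨by rw [abs_lt]; constructor <;> linarith [hy.1, hy.2], h.hv _, h.hv _, (h.dom j).1.1,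
      (h.dom j).1.2, (h.dom j).2.1, (h.dom j).2.2, h.ey j, ?_, ?_, hi.1, hi.2.1, hi.2.2.1,
      hi.2.2.2, fun k => (hG.1 j k).1, fun k => (hG.1 j k).2, h.sv j, h.ste j⟩
    · rw [m1, im_ofReal_mul, abs_mul]
      have h1 := hp.p1
      have h2 : 0 ≤ Real.pi * |(v (t j)).re| := mul_nonneg hpi.le (abs_nonneg _)
      norm_num
      linarith
    · rw [m1, im_ofReal_mul, abs_mul]
      have h1 := hp.p2
      have h2 : 0 ≤ Real.pi * |(v (s j)).re| := mul_nonneg hpi.le (abs_nonneg _)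
      norm_num
      linarith
  ev := h.ev

/-- **Turning the octahedron `P`.** -/
theorem turn_cX {y v w Q Q' : ℂ} (h : SV y v w Q Q') (hp : PosC v w Q Q') :
    turn 1 2 (cX y v w) = shx y v w := by
  have A := alg_of h hp
  have n1 : exp (Real.pi * I * (-v)) = (exp (Real.pi * I * v))⁻¹ := by rw [mul_neg, exp_neg]
  have n2 : exp (Real.pi * I * (-w)) = (exp (Real.pi * I * w))⁻¹ := by rw [mul_neg, exp_neg]
  have c1 : cos (Real.pi * (-v)) = cos (Real.pi * v) := by rw [mul_neg, Complex.cos_neg]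
  have c2 : cos (Real.pi * (-w)) = cos (Real.pi * w) := by rw [mul_neg, Complex.cos_neg]
  have q1 := exp_ne_zero Q
  have q2 := exp_ne_zero Q'
  have q3 := exp_ne_zero (Real.pi * I * v)
  have q4 := exp_ne_zero (Real.pi * I * w)
  rw [cX_eq h]
  funext k
  fin_cases k
  · show shp (Xe v w Q Q' 1) 1 * shp (Xe v w Q Q' 0) 2 = sX y v
    rw [A.t0, sX_of h]
  · show shp (Xe v w Q Q' 1) 2 * shp (Xe v w Q Q' 0) 1 = sX y (-w)
    rw [A.t1, sX_of h.symm.neg_left, n2, c2, exp_neg Q']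
    field_simp
  · show shp (Xe v w Q Q' 3) 2 * shp (Xe v w Q Q' 2) 1 = sX y w
    rw [A.t2, sX_of h.symm]
  · show shp (Xe v w Q Q' 3) 1 * shp (Xe v w Q Q' 2) 2 = sX y (-v)
    rw [A.t3, sX_of h.neg_left, n1, c1, exp_neg Q]
    field_simp

/-- **Turning the octahedron `P'`.** -/
theorem turn_cY {y v w Q Q' : ℂ} (h : SV y v w Q Q') (hp : PosC v w Q Q') :
    turn 2 1 (cY y v w) = shy y v w := by
  have A := alg_of h hp
  have n1 : exp (Real.pi * I * (-v)) = (exp (Real.pi * I * v))⁻¹ := by rw [mul_neg, exp_neg]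
  have n2 : exp (Real.pi * I * (-w)) = (exp (Real.pi * I * w))⁻¹ := by rw [mul_neg, exp_neg]
  have c1 : cos (Real.pi * (-v)) = cos (Real.pi * v) := by rw [mul_neg, Complex.cos_neg]
  have c2 : cos (Real.pi * (-w)) = cos (Real.pi * w) := by rw [mul_neg, Complex.cos_neg]
  have q1 := exp_ne_zero Q
  have q2 := exp_ne_zero Q'
  have q3 := exp_ne_zero (Real.pi * I * v)
  have q4 := exp_ne_zero (Real.pi * I * w)
  rw [cY_eq h]
  funext k
  fin_cases k
  · show shp (Ye v w Q Q' 1) 2 * shp (Ye v w Q Q' 0) 1 = sY y v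
    rw [A.u0, sY_of h]
  · show shp (Ye v w Q Q' 1) 1 * shp (Ye v w Q Q' 0) 2 = sY y (-w)
    rw [A.u1, sY_of h.symm.neg_left, n2, c2, exp_neg Q']
    field_simp
  · show shp (Ye v w Q Q' 3) 1 * shp (Ye v w Q Q' 2) 2 = sY y w
    rw [A.u2, sY_of h.symm]
  · show shp (Ye v w Q Q' 3) 2 * shp (Ye v w Q Q' 2) 1 = sY y (-v)
    rw [A.u3, sY_of h.neg_left, n1, c1, exp_neg Q]
    field_simp

end Pool.Agent.AT.G
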