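import Pool.Agent.AT.G.FlatExp

/-!
# The equations of the flattenings of a block
-/

namespace Pool.Agent.AT.Fl

open Pool.Agent.H63.VC7 hiding FX FY
open Complex Pool.Agent.H63.VC3 Pool.Agent.S3 Pool.Agent.S3.G Pool.Agent.AT.G Pool.Agent.AT.CV
open Pool.Agent.AT.Hyp (aroundA)

private theorem X00 (y v w : ℂ) (ms mt al be : ℤ) : FX y v w ms mt al be 0 0 =
    Real.pi * I / 2 - Real.pi * I * v + hh (y + 1 / 2) - he (y + v) + (al - ms + mt) * (Real.pi * I) := by
  change (Real.pi * I / 2 - Real.pi * I * v + hh (y + 1 / 2) - he (y + v)) + ((al - ms + mt : ℤ) : ℂ) * (Real.pi * I) = _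
  push_cast
  ring

private theorem X01 (y v w : ℂ) (ms mt al be : ℤ) : FX y v w ms mt al be 0 1 =
    Real.pi * I / 2 - Real.pi * I * y + he (y + v) - hh (v + 1 / 2) + (-al + ms - mt - 1) * (Real.pi * I) := by
  change (Real.pi * I / 2 - Real.pi * I * y + he (y + v) - hh (v + 1 / 2)) + ((-al + ms - mt - 1 : ℤ) : ℂ) * (Real.pi * I) = _
  push_cast
  ring

private theorem X02 (y v w : ℂ) (ms mt al be : ℤ) : FX y v w ms mt al be 0 2 =
    Real.pi * I * (y + v) + hh (v + 1 / 2) - hh (y + 1 / 2) + (0) * (Real.pi * I) := by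
  change (Real.pi * I * (y + v) + hh (v + 1 / 2) - hh (y + 1 / 2)) + ((0 : ℤ) : ℂ) * (Real.pi * I) = _
  push_cast
  ring

private theorem X10 (y v w : ℂ) (ms mt al be : ℤ) : FX y v w ms mt al be 1 0 =
    Real.pi * I / 2 + Real.pi * I * w + hh (y + 1 / 2) - he (y - w) + (be + ms) * (Real.pi * I) := by
  change (Real.pi * I / 2 - Real.pi * I * (-w) + hh (y + 1 / 2) - he (y + (-w))) + ((be + ms : ℤ) : ℂ) * (Real.pi * I) = _
  have e1 : (y + -w : ℂ) = y - w := by ring
  rw [e1]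
  push_cast
  ring

private theorem X11 (y v w : ℂ) (ms mt al be : ℤ) : FX y v w ms mt al be 1 1 =
    Real.pi * I / 2 - Real.pi * I * y + he (y - w) - hh (w + 1 / 2) + (-be - 1) * (Real.pi * I) := by
  change (Real.pi * I / 2 - Real.pi * I * y + he (y + (-w)) - hh ((-w) + 1 / 2)) + ((-be - 1 : ℤ) : ℂ) * (Real.pi * I) = _
  have e1 : (y + -w : ℂ) = y - w := by ring
  have e2 := (BlockRC_refl w).2
  rw [e1, e2]
  push_cast
  ring

private theorem X12 (y v w : ℂ) (ms mt al be : ℤ) : FX y v w ms mt al be 1 2 =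
    Real.pi * I * (y - w) + hh (w + 1 / 2) - hh (y + 1 / 2) + (-ms) * (Real.pi * I) := by
  change (Real.pi * I * (y + (-w)) + hh ((-w) + 1 / 2) - hh (y + 1 / 2)) + ((-ms : ℤ) : ℂ) * (Real.pi * I) = _
  have e2 := (BlockRC_refl w).2
  rw [e2]
  push_cast
  ring

private theorem X20 (y v w : ℂ) (ms mt al be : ℤ) : FX y v w ms mt al be 2 0 =
    Real.pi * I / 2 - Real.pi * I * w + hh (y + 1 / 2) - he (y + w) + (-be - mt - 1) * (Real.pi * I) := by
  change (Real.pi * I / 2 - Real.pi * I * w + hh (y + 1 / 2) - he (y + w)) + ((-be - mt - 1 : ℤ) : ℂ) * (Real.pi * I) = _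
  push_cast
  ring

private theorem X21 (y v w : ℂ) (ms mt al be : ℤ) : FX y v w ms mt al be 2 1 =
    Real.pi * I / 2 - Real.pi * I * y + he (y + w) - hh (w + 1 / 2) + (be + ms) * (Real.pi * I) := by
  change (Real.pi * I / 2 - Real.pi * I * y + he (y + w) - hh (w + 1 / 2)) + ((be + ms : ℤ) : ℂ) * (Real.pi * I) = _
  push_cast
  ring

private theorem X22 (y v w : ℂ) (ms mt al be : ℤ) : FX y v w ms mt al be 2 2 =
    Real.pi * I * (y + w) + hh (w + 1 / 2) - hh (y + 1 / 2) + (mt - ms) * (Real.pi * I) := by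
  change (Real.pi * I * (y + w) + hh (w + 1 / 2) - hh (y + 1 / 2)) + ((mt - ms : ℤ) : ℂ) * (Real.pi * I) = _
  push_cast
  ring

private theorem X30 (y v w : ℂ) (ms mt al be : ℤ) : FX y v w ms mt al be 3 0 =
    Real.pi * I / 2 + Real.pi * I * v + hh (y + 1 / 2) - he (y - v) + (-al - 1) * (Real.pi * I) := by
  change (Real.pi * I / 2 - Real.pi * I * (-v) + hh (y + 1 / 2) - he (y + (-v))) + ((-al - 1 : ℤ) : ℂ) * (Real.pi * I) = _
  have e1 : (y + -v : ℂ) = y - v := by ring
  rw [e1]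
  push_cast
  ring

private theorem X31 (y v w : ℂ) (ms mt al be : ℤ) : FX y v w ms mt al be 3 1 =
    Real.pi * I / 2 - Real.pi * I * y + he (y - v) - hh (v + 1 / 2) + (al + ms) * (Real.pi * I) := by
  change (Real.pi * I / 2 - Real.pi * I * y + he (y + (-v)) - hh ((-v) + 1 / 2)) + ((al + ms : ℤ) : ℂ) * (Real.pi * I) = _
  have e1 : (y + -v : ℂ) = y - v := by ring
  have e2 := (BlockRC_refl v).2
  rw [e1, e2]
  push_cast
  ring

private theorem X32 (y v w : ℂ) (ms mt al be : ℤ) : FX y v w ms mt al be 3 2 =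
    Real.pi * I * (y - v) + hh (v + 1 / 2) - hh (y + 1 / 2) + (-ms) * (Real.pi * I) := by
  change (Real.pi * I * (y + (-v)) + hh ((-v) + 1 / 2) - hh (y + 1 / 2)) + ((-ms : ℤ) : ℂ) * (Real.pi * I) = _
  have e2 := (BlockRC_refl v).2
  rw [e2]
  push_cast
  ring

private theorem Y00 (y v w : ℂ) (ms mt al be : ℤ) : FY y v w ms mt al be 0 0 =
    Real.pi * I / 2 - Real.pi * I * v + he (y + v) - hh (y + 1 / 2) + (-al - mt - 1) * (Real.pi * I) := by
  change (Real.pi * I / 2 - Real.pi * I * v + he (y + v) - hh (y + 1 / 2)) + ((-al - mt - 1 : ℤ) : ℂ) * (Real.pi * I) = _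
  push_cast
  ring

private theorem Y01 (y v w : ℂ) (ms mt al be : ℤ) : FY y v w ms mt al be 0 1 =
    Real.pi * I * (y + v) + hh (y + 1 / 2) - hh (v + 1 / 2) + (0) * (Real.pi * I) := by
  change (Real.pi * I * (y + v) + hh (y + 1 / 2) - hh (v + 1 / 2)) + ((0 : ℤ) : ℂ) * (Real.pi * I) = _
  push_cast
  ring

private theorem Y02 (y v w : ℂ) (ms mt al be : ℤ) : FY y v w ms mt al be 0 2 =
    Real.pi * I / 2 - Real.pi * I * y + hh (v + 1 / 2) - he (y + v) + (al + mt) * (Real.pi * I) := by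
  change (Real.pi * I / 2 - Real.pi * I * y + hh (v + 1 / 2) - he (y + v)) + ((al + mt : ℤ) : ℂ) * (Real.pi * I) = _
  push_cast
  ring

private theorem Y10 (y v w : ℂ) (ms mt al be : ℤ) : FY y v w ms mt al be 1 0 =
    Real.pi * I / 2 + Real.pi * I * w + he (y - w) - hh (y + 1 / 2) + (-be - ms + mt - 1) * (Real.pi * I) := by
  change (Real.pi * I / 2 - Real.pi * I * (-w) + he (y + (-w)) - hh (y + 1 / 2)) + ((-be - ms + mt - 1 : ℤ) : ℂ) * (Real.pi * I) = _
  have e1 : (y + -w : ℂ) = y - w := by ring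
  rw [e1]
  push_cast
  ring

private theorem Y11 (y v w : ℂ) (ms mt al be : ℤ) : FY y v w ms mt al be 1 1 =
    Real.pi * I * (y - w) + hh (y + 1 / 2) - hh (w + 1 / 2) + (-mt) * (Real.pi * I) := by
  change (Real.pi * I * (y + (-w)) + hh (y + 1 / 2) - hh ((-w) + 1 / 2)) + ((-mt : ℤ) : ℂ) * (Real.pi * I) = _
  have e2 := (BlockRC_refl w).2
  rw [e2]
  push_cast
  ring

private theorem Y12 (y v w : ℂ) (ms mt al be : ℤ) : FY y v w ms mt al be 1 2 =
    Real.pi * I / 2 - Real.pi * I * y + hh (w + 1 / 2) - he (y - w) + (be + ms) * (Real.pi * I) := by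
  change (Real.pi * I / 2 - Real.pi * I * y + hh ((-w) + 1 / 2) - he (y + (-w))) + ((be + ms : ℤ) : ℂ) * (Real.pi * I) = _
  have e1 : (y + -w : ℂ) = y - w := by ring
  have e2 := (BlockRC_refl w).2
  rw [e1, e2]
  push_cast
  ring

private theorem Y20 (y v w : ℂ) (ms mt al be : ℤ) : FY y v w ms mt al be 2 0 =
    Real.pi * I / 2 - Real.pi * I * w + he (y + w) - hh (y + 1 / 2) + (be) * (Real.pi * I) := by
  change (Real.pi * I / 2 - Real.pi * I * w + he (y + w) - hh (y + 1 / 2)) + ((be : ℤ) : ℂ) * (Real.pi * I) = _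
  push_cast
  ring

private theorem Y21 (y v w : ℂ) (ms mt al be : ℤ) : FY y v w ms mt al be 2 1 =
    Real.pi * I * (y + w) + hh (y + 1 / 2) - hh (w + 1 / 2) + (0) * (Real.pi * I) := by
  change (Real.pi * I * (y + w) + hh (y + 1 / 2) - hh (w + 1 / 2)) + ((0 : ℤ) : ℂ) * (Real.pi * I) = _
  push_cast
  ring

private theorem Y22 (y v w : ℂ) (ms mt al be : ℤ) : FY y v w ms mt al be 2 2 =
    Real.pi * I / 2 - Real.pi * I * y + hh (w + 1 / 2) - he (y + w) + (-1 - be) * (Real.pi * I) := by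
  change (Real.pi * I / 2 - Real.pi * I * y + hh (w + 1 / 2) - he (y + w)) + ((-1 - be : ℤ) : ℂ) * (Real.pi * I) = _
  push_cast
  ring

private theorem Y30 (y v w : ℂ) (ms mt al be : ℤ) : FY y v w ms mt al be 3 0 =
    Real.pi * I / 2 + Real.pi * I * v + he (y - v) - hh (y + 1 / 2) + (al + ms) * (Real.pi * I) := by
  change (Real.pi * I / 2 - Real.pi * I * (-v) + he (y + (-v)) - hh (y + 1 / 2)) + ((al + ms : ℤ) : ℂ) * (Real.pi * I) = _
  have e1 : (y + -v : ℂ) = y - v := by ring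
  rw [e1]
  push_cast
  ring

private theorem Y31 (y v w : ℂ) (ms mt al be : ℤ) : FY y v w ms mt al be 3 1 =
    Real.pi * I * (y - v) + hh (y + 1 / 2) - hh (v + 1 / 2) + (-ms) * (Real.pi * I) := by
  change (Real.pi * I * (y + (-v)) + hh (y + 1 / 2) - hh ((-v) + 1 / 2)) + ((-ms : ℤ) : ℂ) * (Real.pi * I) = _
  have e2 := (BlockRC_refl v).2
  rw [e2]
  push_cast
  ring

private theorem Y32 (y v w : ℂ) (ms mt al be : ℤ) : FY y v w ms mt al be 3 2 =
    Real.pi * I / 2 - Real.pi * I * y + hh (v + 1 / 2) - he (y - v) + (-1 - al) * (Real.pi * I) := by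
  change (Real.pi * I / 2 - Real.pi * I * y + hh ((-v) + 1 / 2) - he (y + (-v))) + ((-1 - al : ℤ) : ℂ) * (Real.pi * I) = _
  have e1 : (y + -v : ℂ) = y - v := by ring
  have e2 := (BlockRC_refl v).2
  rw [e1, e2]
  push_cast
  ring

theorem sum_FX {y v w : ℂ} (h : Blk y v w) (ms mt al be : ℤ) : ∑ k, FX y v w ms mt al be k 0 = 0 := by
  rw [Fin.sum_univ_four, X00, X10, X20, X30]
  linear_combination h.ey

theorem sum_FY {y v w : ℂ} (h : Blk y v w) (ms mt al be : ℤ) : ∑ k, FY y v w ms mt al be k 0 = 0 := by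
  rw [Fin.sum_univ_four, Y00, Y10, Y20, Y30]
  linear_combination -h.ey

theorem block_flat {y v w : ℂ}
    (hst : he (y - w) + he (y + w) = 2 * hh (y + 1 / 2) + 2 * hh (w + 1 / 2) - 2 * hh (v + 1 / 2)) (ms mt al be : ℤ) :
    Pool.Agent.AT.Hyp.Block 0 (aroundA 1 2 (FX y v w ms mt al be)) (aroundA 2 1 (FY y v w ms mt al be))
      (2 * Real.pi * I * v + ms * (Real.pi * I)) (2 * Real.pi * I * w + mt * (Real.pi * I))
      ((hh (v + 1 / 2) + ms / 2 * (Real.pi * I)) - (hh (w + 1 / 2) + mt / 2 * (Real.pi * I))) := by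
  constructor
  · change (FX y v w ms mt al be 0 2 + FX y v w ms mt al be 3 1) + (FY y v w ms mt al be 0 1 + FY y v w ms mt al be 3 2) = 0 + (2 * Real.pi * I * v + ms * (Real.pi * I))
    rw [X02, X31, Y01, Y32]
    ring
  · change (FX y v w ms mt al be 0 0) + (FY y v w ms mt al be 0 0) = 0 - (2 * Real.pi * I * v + ms * (Real.pi * I))
    rw [X00, Y00]
    ring
  · change (FX y v w ms mt al be 0 1 + FX y v w ms mt al be 3 2) + (FY y v w ms mt al be 0 2 + FY y v w ms mt al be 3 1) = 0 - (2 * Real.pi * I * v + ms * (Real.pi * I))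
    rw [X01, X32, Y02, Y31]
    ring
  · change (FX y v w ms mt al be 3 0) + (FY y v w ms mt al be 3 0) = 0 + (2 * Real.pi * I * v + ms * (Real.pi * I))
    rw [X30, Y30]
    ring
  · change (FX y v w ms mt al be 1 1 + FX y v w ms mt al be 2 2) + (FY y v w ms mt al be 1 2 + FY y v w ms mt al be 2 1) = 0 + (2 * Real.pi * I * w + mt * (Real.pi * I))
    rw [X11, X22, Y12, Y21]
    ring
  · change (FX y v w ms mt al be 1 0) + (FY y v w ms mt al be 1 0) = 0 + (2 * Real.pi * I * w + mt * (Real.pi * I))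
    rw [X10, Y10]
    ring
  · change (FX y v w ms mt al be 1 2 + FX y v w ms mt al be 2 1) + (FY y v w ms mt al be 1 1 + FY y v w ms mt al be 2 2) = 0 - (2 * Real.pi * I * w + mt * (Real.pi * I))
    rw [X12, X21, Y11, Y22]
    ring
  · change (FX y v w ms mt al be 2 0) + (FY y v w ms mt al be 2 0) = 0 - (2 * Real.pi * I * w + mt * (Real.pi * I))
    rw [X20, Y20]
    ring
  · change (FX y v w ms mt al be 0 1 + FX y v w ms mt al be 1 2) + (FY y v w ms mt al be 0 2 + FY y v w ms mt al be 1 1) = 0 - (2 * Real.pi * I * w + mt * (Real.pi * I))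
    rw [X01, X12, Y02, Y11]
    ring
  · change (FX y v w ms mt al be 0 2 + FX y v w ms mt al be 1 1) + (FY y v w ms mt al be 0 1 + FY y v w ms mt al be 1 2) = 0 + (2 * Real.pi * I * v + ms * (Real.pi * I))
    rw [X02, X11, Y01, Y12]
    ring
  · change (FX y v w ms mt al be 2 2 + FX y v w ms mt al be 3 1) + (FY y v w ms mt al be 2 1 + FY y v w ms mt al be 3 2) = 0 + (2 * Real.pi * I * w + mt * (Real.pi * I))
    rw [X22, X31, Y21, Y32]
    ring
  · change (FX y v w ms mt al be 2 1 + FX y v w ms mt al be 3 2) + (FY y v w ms mt al be 2 2 + FY y v w ms mt al be 3 1) = 0 - (2 * Real.pi * I * v + ms * (Real.pi * I))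
    rw [X21, X32, Y22, Y31]
    ring
  · change (FX y v w ms mt al be 0 2 + FX y v w ms mt al be 3 1) + (FX y v w ms mt al be 3 0) - 0 = (2 * Real.pi * I * v + ms * (Real.pi * I))
    rw [X02, X31, X30]
    ring
  · change (FX y v w ms mt al be 1 1 + FX y v w ms mt al be 2 2) + (FX y v w ms mt al be 1 0) - 0 = (2 * Real.pi * I * w + mt * (Real.pi * I))
    rw [X11, X22, X10]
    ring
  · change 0 - (FX y v w ms mt al be 1 1 + FX y v w ms mt al be 2 2) - (FX y v w ms mt al be 2 1 + FX y v w ms mt al be 3 2) = ((2 * Real.pi * I * v + ms * (Real.pi * I)) - (2 * Real.pi * I * w + mt * (Real.pi * I))) / 2 + ((hh (v + 1 / 2) + ms / 2 * (Real.pi * I)) - (hh (w + 1 / 2) + mt / 2 * (Real.pi * I)))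
    rw [X11, X22, X21, X32]
    linear_combination -hst
  · change 0 - (FX y v w ms mt al be 0 0) - (FX y v w ms mt al be 0 1 + FX y v w ms mt al be 1 2) = ((2 * Real.pi * I * v + ms * (Real.pi * I)) + (2 * Real.pi * I * w + mt * (Real.pi * I))) / 2 + ((hh (v + 1 / 2) + ms / 2 * (Real.pi * I)) - (hh (w + 1 / 2) + mt / 2 * (Real.pi * I)))
    rw [X00, X01, X12]
    ring
  · change 0 - (FX y v w ms mt al be 1 2 + FX y v w ms mt al be 2 1) - (FX y v w ms mt al be 0 2 + FX y v w ms mt al be 1 1) = -((2 * Real.pi * I * v + ms * (Real.pi * I)) - (2 * Real.pi * I * w + mt * (Real.pi * I))) / 2 + ((hh (v + 1 / 2) + ms / 2 * (Real.pi * I)) - (hh (w + 1 / 2) + mt / 2 * (Real.pi * I)))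
    rw [X12, X21, X02, X11]
    linear_combination -hst
  · change 0 - (FX y v w ms mt al be 3 0) - (FX y v w ms mt al be 2 2 + FX y v w ms mt al be 3 1) = -((2 * Real.pi * I * v + ms * (Real.pi * I)) + (2 * Real.pi * I * w + mt * (Real.pi * I))) / 2 + ((hh (v + 1 / 2) + ms / 2 * (Real.pi * I)) - (hh (w + 1 / 2) + mt / 2 * (Real.pi * I)))
    rw [X30, X22, X31]
    ring

theorem block_mer {y v w : ℂ} (ms mt al be : ℤ) :
    (aroundA 1 2 (FX y v w ms mt al be)).c 0 + (aroundA 1 2 (FX y v w ms mt al be)).c 1 - 0 =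
      he (y - v) - he (y + v) + (2 * al + mt + 1) * (Real.pi * I) ∧
    (aroundA 1 2 (FX y v w ms mt al be)).c' 0 + (aroundA 1 2 (FX y v w ms mt al be)).c' 3 - 0 =
      he (y - w) - he (y + w) - (2 * be + ms + 1) * (Real.pi * I) := by
  constructor
  · change (FX y v w ms mt al be 0 2 + FX y v w ms mt al be 3 1) + FX y v w ms mt al be 0 0 - 0 = _
    rw [X02, X31, X00]
    ring
  · change (FX y v w ms mt al be 1 1 + FX y v w ms mt al be 2 2) + FX y v w ms mt al be 2 0 - 0 = _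
    rw [X11, X22, X20]
    ring

variable {m p : ℕ}

/-- The sum over the slots of a node. -/
private theorem slots (s t : Fin m → Fin p) (hst : ∀ j, s j ≠ t j) (i : Fin p)
    (h : Fin p → Fin m → ℂ) :
    ∑ j, ((if s j = i then h (s j) j else 0) + (if t j = i then h (t j) j else 0)) =
      ∑ j ∈ inc s t i, h i j := by
  rw [inc, Finset.sum_filter]
  refine Finset.sum_congr rfl fun j _ => ?_
  by_cases h1 : s j = i
  · have h2 : ¬ t j = i := fun h2 => hst j (h1.trans h2.symm)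
    rw [if_pos h1, if_neg h2, if_pos (Or.inl h1), h1, add_zero]
  · by_cases h2 : t j = i
    · rw [if_neg h1, if_pos h2, if_pos (Or.inr h2), h2, zero_add]
    · rw [if_neg h1, if_neg h2, if_neg (fun h => h.elim h1 h2), add_zero]

theorem glue_flat {s t : Fin m → Fin p} {a : Fin p → ℤ} {y : Fin m → ℂ} {v : Fin p → ℂ} (hc : CritT s t a y v)
    (hst : ∀ j, he (y j - v (t j)) + he (y j + v (t j)) = 2 * hh (y j + 1 / 2) + 2 * hh (v (t j) + 1 / 2) - 2 * hh (v (s j) + 1 / 2))
    (n : Fin p → ℤ) (al be : Fin m → ℤ)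
    (hn : ∀ i, (∑ j, ((if s j = i then 2 * al j + n (t j) + 1 else 0) +
        (if t j = i then -(2 * be j + n (s j) + 1) else 0))) + a i * n i = 2) :
    Pool.Agent.AT.Hyp.Glue 0 s t a
      (fun j => aroundA 1 2 (FX (y j) (v (s j)) (v (t j)) (n (s j)) (n (t j)) (al j) (be j)))
      (fun j => aroundA 2 1 (FY (y j) (v (s j)) (v (t j)) (n (s j)) (n (t j)) (al j) (be j)))
      (fun i => 2 * Real.pi * I * v i + n i * (Real.pi * I))
      (fun i => hh (v i + 1 / 2) + n i / 2 * (Real.pi * I)) := by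
  refine ⟨fun j => block_flat (hst j) _ _ _ _, fun i => ?_⟩
  have h1 : ∀ j, ((if s j = i then
      (aroundA 1 2 (FX (y j) (v (s j)) (v (t j)) (n (s j)) (n (t j)) (al j) (be j))).c 0 +
        (aroundA 1 2 (FX (y j) (v (s j)) (v (t j)) (n (s j)) (n (t j)) (al j) (be j))).c 1 - 0 else 0) +
      (if t j = i then
        (aroundA 1 2 (FX (y j) (v (s j)) (v (t j)) (n (s j)) (n (t j)) (al j) (be j))).c' 0 +
        (aroundA 1 2 (FX (y j) (v (s j)) (v (t j)) (n (s j)) (n (t j)) (al j) (be j))).c' 3 - 0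
          else 0)) =
      ((if s j = i then he (y j - v (s j)) - he (y j + v (s j)) else 0) +
      (if t j = i then he (y j - v (t j)) - he (y j + v (t j)) else 0)) +
      (((if s j = i then 2 * al j + n (t j) + 1 else 0) +
        (if t j = i then -(2 * be j + n (s j) + 1) else 0) : ℤ) : ℂ) * (Real.pi * I) := by
    intro j
    obtain ⟨e1, e2⟩ := block_mer (y := y j) (v := v (s j)) (w := v (t j)) (n (s j)) (n (t j)) (al j) (be j)
    rw [e1, e2]
    split_ifs
    all_goals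
      push_cast
      ring
  have h3 : ∑ j, ((if s j = i then he (y j - v (s j)) - he (y j + v (s j)) else 0) +
      (if t j = i then he (y j - v (t j)) - he (y j + v (t j)) else 0)) =
      -(2 * Real.pi * I * (a i * v i + 1)) := by
    rw [slots s t hc.st i fun i j => he (y j - v i) - he (y j + v i)]
    linear_combination hc.ev i
  rw [Finset.sum_congr rfl fun j _ => h1 j, Finset.sum_add_distrib, h3, ← Finset.sum_mul, ← Int.cast_sum]
  have h2 : (((∑ j, ((if s j = i then 2 * al j + n (t j) + 1 else 0) +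
        (if t j = i then -(2 * be j + n (s j) + 1) else 0)) : ℤ)) : ℂ) + a i * n i = 2 := by
    exact_mod_cast hn i
  linear_combination (Real.pi * I) * h2

end Pool.Agent.AT.Fl
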