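import Pool.Agent.AT.G.Defs
import Pool.Agent.H63.VC7.GeoC

/-!
# Project AT, complex volume: the flattenings of a block

The tetrahedra around `a_0 a_2` have the shape parameters `VC7.sX y u`, `VC7.sY y u` with
`u = v, -w, w, -v`; `LX y u`, `LY y u` are the analytic logarithms of their three shape parameters
(of sum `π i`), and the flattenings are `LX + nX π i`, `LY + nY π i` with the integers of `VC7.GeoC`.
-/

namespace Pool.Agent.AT.CV

open Complex Pool.Agent.H63.VC3 Pool.Agent.H63.VC7 Pool.Agent.S3 Pool.Agent.S3.G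

/-- The domain. -/
structure Dm (y u : ℂ) : Prop where
  hy : |y.re| < 1 / 2
  hu : |u.re| < 1 / 2
  d : fdo (y + u)

/-- The logarithms of the shape parameters of a tetrahedron of `P`. -/
noncomputable def LX (y u : ℂ) : Fin 3 → ℂ :=
  ![Real.pi * I / 2 - Real.pi * I * u + hh (y + 1 / 2) - he (y + u),
    Real.pi * I / 2 - Real.pi * I * y + he (y + u) - hh (u + 1 / 2),
    Real.pi * I * (y + u) + hh (u + 1 / 2) - hh (y + 1 / 2)]

/-- The logarithms of the shape parameters of a tetrahedron of `P'`. -/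
noncomputable def LY (y u : ℂ) : Fin 3 → ℂ :=
  ![Real.pi * I / 2 - Real.pi * I * u + he (y + u) - hh (y + 1 / 2),
    Real.pi * I * (y + u) + hh (y + 1 / 2) - hh (u + 1 / 2),
    Real.pi * I / 2 - Real.pi * I * y + hh (u + 1 / 2) - he (y + u)]

/-- The four values of `u`. -/
def su (v w : ℂ) : Fin 4 → ℂ := ![v, -w, w, -v]

/-- The flattenings of the tetrahedra of `P`. -/
noncomputable def FX (y v w : ℂ) (ms mt al be : ℤ) (k : Fin 4) (c : Fin 3) : ℂ :=
  LX y (su v w k) c + nX ms mt al be k c * (Real.pi * I)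

/-- The flattenings of the tetrahedra of `P'`. -/
noncomputable def FY (y v w : ℂ) (ms mt al be : ℤ) (k : Fin 4) (c : Fin 3) : ℂ :=
  LY y (su v w k) c + nY ms mt al be k c * (Real.pi * I)

theorem shx_su (y v w : ℂ) (k : Fin 4) : shx y v w k = sX y (su v w k) := by
  fin_cases k <;> rfl

theorem shy_su (y v w : ℂ) (k : Fin 4) : shy y v w k = sY y (su v w k) := by
  fin_cases k <;> rfl

end Pool.Agent.AT.CV
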