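import Pool.Agent.AT.G.Turn
import Pool.Agent.H63.VC7.VolBlock

/-!
# The volume
-/

set_option autoImplicit false

namespace Pool.Agent.AT.G

open Pool.Agent.S3 Pool.Agent.S3.G
open Complex Pool.Agent.H63.VC Pool.Agent.H63.VC3 Pool.Agent.H63.VC4
open Pool.Agent.H63.VC7 (inc shx shy sX sY vol_pair sum_inc)
open Pool.Agent.H63.VC7.Hyp Pool.Agent.AT.Hyp
open scoped BigOperators

/-! ### Turning does not change the volume -/

theorem D_quot {x y : ℂ} (hx : 0 < x.im) (hy : 0 < y.im) :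
    blochWigner ((1 - x) / (1 - x * y)) = -blochWigner ((1 - 1 / x) / (1 - y)) := by
  have x0 := up_ne hx
  have x1 := one_sub_ne hx
  have y1 := one_sub_ne hy
  have e : (1 - 1 / x) / (1 - y) = (1 - ((1 - x) / (1 - x * y))⁻¹)⁻¹ := by
    have e1 : 1 - ((1 - x) / (1 - x * y))⁻¹ = -(x * (1 - y)) / (1 - x) := by
      rw [inv_div]
      field_simp
      ring
    rw [e1, inv_div]
    field_simp
    ring
  rw [e, SWpath_inv, SWpath_one_sub, SWpath_inv]
  ring

theorem mul_ne_one {x y : ℂ} (hx : 0 < x.im) (hy : 0 < y.im) : x * y ≠ 1 := by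
  intro h
  have x0 := up_ne hx
  have e : y = x⁻¹ := eq_inv_of_mul_eq_one_right h
  rw [e, inv_im] at hy
  have h2 : 0 < normSq x := normSq_pos.2 x0
  have : -x.im / normSq x < 0 := div_neg_of_neg_of_pos (by linarith) h2
  linarith

theorem D_five {x y : ℂ} (hx : 0 < x.im) (hy : 0 < y.im) :
    blochWigner x + blochWigner y + blochWigner (1 - x * y) =
      blochWigner ((1 - 1 / x) / (1 - y)) + blochWigner ((1 - 1 / y) / (1 - x)) := by
  have h := five_term x y (mul_ne_one hx hy)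
  have h1 := D_quot hx hy
  have h2 := D_quot hy hx
  rw [mul_comm y x] at h2
  rw [h1, h2] at h
  linarith

theorem D_turn {x : Fin 4 → ℂ} (hx : ∀ k, 0 < (x k).im) (h2 : x 2 * x 0 = -1)
    (h3 : x 3 * x 1 = -1) :
    ∑ k, blochWigner (x k) =
      blochWigner ((1 - 1 / x 0) / (1 - x 1)) + blochWigner ((1 - 1 / x 1) / (1 - x 0)) +
      (blochWigner ((1 - 1 / x 2) / (1 - x 3)) + blochWigner ((1 - 1 / x 3) / (1 - x 2))) := by
  have f1 := D_five (hx 0) (hx 1)
  have f2 := D_five (hx 2) (hx 3)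
  have e : x 2 * x 3 = (x 0 * x 1)⁻¹ := by
    have a0 := up_ne (hx 0)
    have a1 := up_ne (hx 1)
    refine eq_inv_of_mul_eq_one_left ?_
    linear_combination x 3 * x 1 * h2 - h3
  rw [e, SWpath_one_sub, SWpath_inv] at f2
  rw [SWpath_one_sub] at f1
  rw [Fin.sum_univ_four]
  linarith

/-! ### The volume of a block -/

theorem neg_exp_D (v : ℂ) :
    blochWigner (-exp (2 * Real.pi * I * (-v))) = -blochWigner (-exp (2 * Real.pi * I * v)) := by
  rw [← SWpath_inv]
  congr 1
  rw [inv_neg, ← exp_neg]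
  congr 2
  ring

theorem SV.sin_ne {y v w Q Q' : ℂ} (h : SV y v w Q Q') : sin (Real.pi * (y + v)) ≠ 0 := by
  intro h0
  have := h.sv
  rw [h0, zero_mul] at this
  exact mul_ne_zero (exp_ne_zero Q) (mul_ne_zero h.cv h.cy) this.symm

theorem pair_of {y v w Q Q' : ℂ} (h : SV y v w Q Q') :
    blochWigner (sX y v) + blochWigner (sY y v) =
    blochWigner (exp (2 * Real.pi * I * (y + v))) - blochWigner (-exp (2 * Real.pi * I * y)) -
      blochWigner (-exp (2 * Real.pi * I * v)) := vol_pair y v h.cy h.cv h.sin_ne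

/-- The Bloch-Wigner terms of an edge. -/
noncomputable def bwE (y v w : ℂ) : ℝ := bwP y (.op v) + bwP y (.op w)

theorem vol_blk {y v w Q Q' : ℂ} (h : SV y v w Q Q') (hp : PosC v w Q Q') :
    ∑ k, (blochWigner (Xe v w Q Q' k) + blochWigner (Ye v w Q Q' k)) = bwE y v w := by
  have O := oct_of h hp
  have t1 := turn_cX h hp
  have t2 := turn_cY h hp
  rw [cX_eq h] at t1
  rw [cY_eq h] at t2
  have y2 : Ye v w Q Q' 2 * Ye v w Q Q' 0 = -1 := by
    have h1 := one_add_ne (O.pX 1)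
    have h2 := one_sub_ne (O.pX 1)
    rw [O.Y2, O.Y0]
    field_simp
  have y3 : Ye v w Q Q' 3 * Ye v w Q Q' 1 = -1 := by
    have h1 := one_add_ne (O.pX 0)
    have h2 := one_sub_ne (O.pX 0)
    rw [O.Y3, O.Y1]
    field_simp
  have d1 := D_turn O.pX O.x2 O.x3
  have d2 := D_turn O.pY y2 y3
  have a0 : (1 - 1 / Xe v w Q Q' 0) / (1 - Xe v w Q Q' 1) = sX y v := by
    have := congrFun t1 0
    change shp (Xe v w Q Q' 1) 1 * shp (Xe v w Q Q' 0) 2 = sX y v at this
    rw [← this, shp_1, shp_2]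
    ring
  have a1 : (1 - 1 / Xe v w Q Q' 1) / (1 - Xe v w Q Q' 0) = sX y (-w) := by
    have := congrFun t1 1
    change shp (Xe v w Q Q' 1) 2 * shp (Xe v w Q Q' 0) 1 = sX y (-w) at this
    rw [← this, shp_1, shp_2]
    ring
  have a2 : (1 - 1 / Xe v w Q Q' 3) / (1 - Xe v w Q Q' 2) = sX y w := by
    have := congrFun t1 2
    change shp (Xe v w Q Q' 3) 2 * shp (Xe v w Q Q' 2) 1 = sX y w at this
    rw [← this, shp_1, shp_2]
    ring
  have a3 : (1 - 1 / Xe v w Q Q' 2) / (1 - Xe v w Q Q' 3) = sX y (-v) := by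
    have := congrFun t1 3
    change shp (Xe v w Q Q' 3) 1 * shp (Xe v w Q Q' 2) 2 = sX y (-v) at this
    rw [← this, shp_1, shp_2]
    ring
  have b0 : (1 - 1 / Ye v w Q Q' 1) / (1 - Ye v w Q Q' 0) = sY y v := by
    have := congrFun t2 0
    change shp (Ye v w Q Q' 1) 2 * shp (Ye v w Q Q' 0) 1 = sY y v at this
    rw [← this, shp_1, shp_2]
    ring
  have b1 : (1 - 1 / Ye v w Q Q' 0) / (1 - Ye v w Q Q' 1) = sY y (-w) := by
    have := congrFun t2 1
    change shp (Ye v w Q Q' 1) 1 * shp (Ye v w Q Q' 0) 2 = sY y (-w) at this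
    rw [← this, shp_1, shp_2]
    ring
  have b2 : (1 - 1 / Ye v w Q Q' 2) / (1 - Ye v w Q Q' 3) = sY y w := by
    have := congrFun t2 2
    change shp (Ye v w Q Q' 3) 1 * shp (Ye v w Q Q' 2) 2 = sY y w at this
    rw [← this, shp_1, shp_2]
    ring
  have b3 : (1 - 1 / Ye v w Q Q' 3) / (1 - Ye v w Q Q' 2) = sY y (-v) := by
    have := congrFun t2 3
    change shp (Ye v w Q Q' 3) 2 * shp (Ye v w Q Q' 2) 1 = sY y (-v) at this
    rw [← this, shp_1, shp_2]
    ring
  rw [a0, a1, a2, a3] at d1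
  rw [b0, b1, b2, b3] at d2
  rw [Finset.sum_add_distrib, d1, d2]
  have p1 := pair_of h
  have p2 := pair_of h.neg_left
  have p3 := pair_of h.symm
  have p4 := pair_of h.symm.neg_left
  rw [neg_exp_D, ← sub_eq_add_neg] at p2 p4
  unfold bwE bwP
  linarith

variable {m p : ℕ} {s t : Fin m → Fin p} {a : Fin p → ℤ} {y : Fin m → ℂ} {v : Fin p → ℂ}

theorem WT_eq (s t : Fin m → Fin p) (a : Fin p → ℤ) (y : Fin m → ℂ) (v : Fin p → ℂ) :
    WT s t a y v = ∑ j, (sP (y j) (.op (v (s j))) + sP (y j) (.op (v (t j)))) +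
      ∑ i, wr ((a i : ℝ) / 2) (v i) := by
  unfold WT
  congr 1
  · refine Finset.sum_congr rfl fun j _ => ?_
    unfold sP
    ring
  · refine Finset.sum_congr rfl fun i _ => ?_
    unfold wr
    push_cast
    ring

/-- The critical value. -/
theorem CritS.value (h : CritS s t a y v) :
    2 * Real.pi * (WT s t a y v).re = ∑ j, bwE (y j) (v (s j)) (v (t j)) := by
  have hsum := sum_inc s t h.st (fun i j => (v i).im * (vsP (y j) (v i)).im)
  have hsum2 : ∑ i, ∑ j ∈ inc s t i, (v i).im * (vsP (y j) (v i)).im =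
      -∑ i, (v i).im * (dwr ((a i : ℝ) / 2) (v i)).im := by
    rw [← Finset.sum_neg_distrib]
    refine Finset.sum_congr rfl (fun i _ => ?_)
    have e1 : ∑ j ∈ inc s t i, (v i).im * (vsP (y j) (v i)).im =
        (v i).im * (∑ j ∈ inc s t i, vsP (y j) (v i)).im := by
      rw [Complex.im_sum, Finset.mul_sum]
    have e2 := congrArg im (h.ev i)
    have e3 : (2 * Real.pi * I * (a i * v i + 1) : ℂ) = dwr ((a i : ℝ) / 2) (v i) := by
      unfold dwr
      push_cast
      ring
    have e4 : ∑ j ∈ inc s t i, (he (y j - v i) - he (y j + v i)) =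
        ∑ j ∈ inc s t i, vsP (y j) (v i) := rfl
    rw [e3, e4, Complex.add_im, zero_im] at e2
    rw [e1]
    linear_combination (v i).im * e2
  have hwr : 2 * Real.pi * ∑ i, (wr ((a i : ℝ) / 2) (v i)).re =
      -(2 * Real.pi * ∑ i, (v i).im * (dwr ((a i : ℝ) / 2) (v i)).im) := by
    rw [Finset.mul_sum, Finset.mul_sum, ← Finset.sum_neg_distrib]
    refine Finset.sum_congr rfl (fun i _ => ?_)
    rw [wr_re]
    ring
  have hj : ∀ j, 2 * Real.pi * (sP (y j) (.op (v (s j))) + sP (y j) (.op (v (t j)))).re =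
      bwE (y j) (v (s j)) (v (t j)) -
        2 * Real.pi * ((v (s j)).im * (vsP (y j) (v (s j))).im +
          (v (t j)).im * (vsP (y j) (v (t j))).im) := by
    intro j
    obtain ⟨y0, y1⟩ := h.hy j
    have h1 := sP_op_re (y j) (v (s j)) (by linarith) y1 (h.dom j).1.1 (h.dom j).1.2
    have h2 := sP_op_re (y j) (v (t j)) (by linarith) y1 (h.dom j).2.1 (h.dom j).2.2
    have h3 := congrArg im (h.ey j)
    have e4 : (dsP (y j) (.op (v (s j)))).im + (dsP (y j) (.op (v (t j)))).im = 0 := by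
      have : dsP (y j) (.op (v (s j))) + dsP (y j) (.op (v (t j))) = 0 := by
        unfold dsP
        linear_combination h.ey j
      rw [← add_im, this, zero_im]
    rw [Complex.add_re]
    unfold bwE
    linear_combination h1 + h2 - 2 * Real.pi * (y j).im * e4
  rw [WT_eq, Complex.add_re, Complex.re_sum, Complex.re_sum, mul_add, hwr, Finset.mul_sum,
    Finset.sum_congr rfl (fun j _ => hj j), Finset.sum_sub_distrib, ← Finset.mul_sum, ← hsum,
    hsum2]
  ring

/-- **The volume is the real part of the critical value.** -/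
theorem CritS.isVolume (h : CritS s t a y v) :
    Hyp.IsVolume s t a (2 * Real.pi * (WT s t a y v).re) := by
  refine ⟨_, _, h.isGeom, ?_⟩
  rw [h.value]
  refine Finset.sum_congr rfl fun j _ => ?_
  exact (vol_blk (h.sv j) (h.posC j)).symm

end Pool.Agent.AT.G
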