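import Pool.Agent.AT.G.Oct

/-!
# The equations of a block, for the logarithms of the shape parameters
-/

set_option autoImplicit false

namespace Pool.Agent.AT.G

open Complex
open Pool.Agent.H63.VC7.Hyp Pool.Agent.AT.Hyp
open scoped BigOperators

/-- What is used of the shapes of a block and the holonomies. -/
structure BkH (X Y : Fin 4 → ℂ) (U W q M M' : ℂ) : Prop extends Oct X Y where
  hU : X 1 * Y 1 = -exp U
  hW : X 0 * Y 0 * exp W = -1
  cU : 1 + exp U ≠ 0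
  hUi : |U.im| < Real.pi
  hWi : |W.im| < Real.pi
  hq : exp q * (exp (W / 2) + exp (-(W / 2))) = exp (U / 2) + exp (-(U / 2))
  hs : |U.im| / 2 + |W.im| / 2 + |q.im| < Real.pi
  sX : ∑ k, lgs (X k) 0 = 2 * (Real.pi * I)
  sY : ∑ k, lgs (Y k) 0 = 2 * (Real.pi * I)
  hM : Y 0 = exp M * X 0
  hM' : X 1 = exp M' * Y 1
  hMi : |M.im| < Real.pi
  hMi' : |M'.im| < Real.pi

/-- The parameters of the edges of `P`. -/
noncomputable def EP (X : Fin 4 → ℂ) : Edges := aroundC 1 2 fun k => lgs (X k)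

/-- The parameters of the edges of `P'`. -/
noncomputable def EQ (Y : Fin 4 → ℂ) : Edges := aroundC 2 1 fun k => lgs (Y k)

section

variable {X Y : Fin 4 → ℂ}

theorem EPc (X : Fin 4 → ℂ) (k : Fin 4) : (EP X).c k = lgs (X k) 1 + lgs (X (k - 1)) 2 := rfl
theorem EPc' (X : Fin 4 → ℂ) (k : Fin 4) : (EP X).c' k = lgs (X k) 2 + lgs (X (k - 1)) 1 := rfl
theorem EPa (X : Fin 4 → ℂ) (k : Fin 4) : (EP X).a k = lgs (X k) 0 := rfl
theorem EQc (Y : Fin 4 → ℂ) (k : Fin 4) : (EQ Y).c k = lgs (Y k) 2 + lgs (Y (k - 1)) 1 := rfl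
theorem EQc' (Y : Fin 4 → ℂ) (k : Fin 4) : (EQ Y).c' k = lgs (Y k) 1 + lgs (Y (k - 1)) 2 := rfl
theorem EQa (Y : Fin 4 → ℂ) (k : Fin 4) : (EQ Y).a k = lgs (Y k) 0 := rfl

/-- The total around `c` or `c'`. -/
theorem sum_c {X : Fin 4 → ℂ} (pX : ∀ k, 0 < (X k).im)
    (sX : ∑ k, lgs (X k) 0 = 2 * (Real.pi * I)) :
    (lgs (X 0) 1 + lgs (X 3) 2) + (lgs (X 1) 1 + lgs (X 0) 2) + (lgs (X 2) 1 + lgs (X 1) 2) +
      (lgs (X 3) 1 + lgs (X 2) 2) = 2 * (Real.pi * I) := by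
  rw [Fin.sum_univ_four] at sX
  linear_combination lgs_sum (pX 0) + lgs_sum (pX 1) + lgs_sum (pX 2) + lgs_sum (pX 3) - sX

theorem im_pi_I : ((Real.pi : ℂ) * I).im = Real.pi := by
  rw [im_ofReal_mul, I_im, mul_one]

theorem im_two_pi_I : (2 * ((Real.pi : ℂ) * I)).im = 2 * Real.pi := by
  have : 2 * ((Real.pi : ℂ) * I) = ((2 * Real.pi : ℝ) : ℂ) * I := by push_cast; ring
  rw [this, im_ofReal_mul, I_im, mul_one]

theorem k1 : (0 : Fin 4) - 1 = 3 := rfl
theorem k2 : (1 : Fin 4) - 1 = 0 := rfl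
theorem k3 : (2 : Fin 4) - 1 = 1 := rfl
theorem k4 : (3 : Fin 4) - 1 = 2 := rfl

/-- The four equations at `c`. -/
theorem four_c (O : Oct X Y) (sX : ∑ k, lgs (X k) 0 = 2 * (Real.pi * I))
    (sY : ∑ k, lgs (Y k) 0 = 2 * (Real.pi * I)) {U : ℂ} (hU : X 1 * Y 1 = -exp U)
    (hUi : |U.im| < Real.pi) (k : Fin 4) :
    (EP X).c k + (EQ Y).c k =
      (![Real.pi * I + U, Real.pi * I - U, Real.pi * I - U, Real.pi * I + U] : Fin 4 → ℂ) k := by
  have u := abs_lt.1 hUi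
  have hx0 := up_ne (O.pX 0)
  have hx1 := up_ne (O.pX 1)
  have ha0 := one_add_ne (O.pX 0)
  have ha1 := one_add_ne (O.pX 1)
  have hb0 := one_sub_ne (O.pX 0)
  have hb1 := one_sub_ne (O.pX 1)
  have hu : exp U = -(X 1 * (1 + X 0)) / (1 - X 0) := by
    rw [O.Y1] at hU
    have : exp U = -(X 1 * ((1 + X 0) / (1 - X 0))) := by rw [hU, neg_neg]
    rw [this]
    ring
  have hun : exp (-U) = -(1 - X 0) / (X 1 * (1 + X 0)) := by
    rw [exp_neg, hu, inv_div, neg_div, div_neg]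
  refine four_eq (S := fun k => (EP X).c k + (EQ Y).c k) (T := ![Real.pi * I + U, Real.pi * I - U,
    Real.pi * I - U, Real.pi * I + U]) ?_ ?_ ?_ ?_ k
  · intro k
    have key : exp ((EP X).c k + (EQ Y).c k) =
        shp (X k) 1 * shp (X (k - 1)) 2 * (shp (Y k) 2 * shp (Y (k - 1)) 1) := by
      rw [EPc, EQc, exp_add, exp_add, exp_add, exp_lgs (O.pX _), exp_lgs (O.pX _),
        exp_lgs (O.pY _), exp_lgs (O.pY _)]
    refine key.trans ?_
    fin_cases k
    · show shp (X 0) 1 * shp (X 3) 2 * (shp (Y 0) 2 * shp (Y 3) 1) = exp (Real.pi * I + U)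
      rw [exp_add, exp_pi_mul_I, hu, O.sX32, O.sY02, O.sY31, shp_1]
      field_simp
    · show shp (X 1) 1 * shp (X 0) 2 * (shp (Y 1) 2 * shp (Y 0) 1) = exp (Real.pi * I - U)
      rw [sub_eq_add_neg, exp_add, exp_pi_mul_I, hun, O.sX02, O.sY12, O.sY01, shp_1]
      field_simp
    · show shp (X 2) 1 * shp (X 1) 2 * (shp (Y 2) 2 * shp (Y 1) 1) = exp (Real.pi * I - U)
      rw [sub_eq_add_neg, exp_add, exp_pi_mul_I, hun, O.sX21, O.sX12, O.sY22, O.sY11]
      field_simp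
    · show shp (X 3) 1 * shp (X 2) 2 * (shp (Y 3) 2 * shp (Y 2) 1) = exp (Real.pi * I + U)
      rw [exp_add, exp_pi_mul_I, hu, O.sX31, O.sX22, O.sY32, O.sY21]
      field_simp
  · intro k
    show 0 < ((EP X).c k + (EQ Y).c k).im
    rw [EPc, EQc, add_im, add_im, add_im]
    have h1 := (lgs_im (O.pX k) 1).1
    have h2 := (lgs_im (O.pX (k - 1)) 2).1
    have h3 := (lgs_im (O.pY k) 2).1
    have h4 := (lgs_im (O.pY (k - 1)) 1).1
    linarith
  · intro k
    have h1 : (Real.pi * I + U).im < 2 * Real.pi := by rw [add_im, im_pi_I]; linarith [u.2]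
    have h2 : (Real.pi * I - U).im < 2 * Real.pi := by rw [sub_im, im_pi_I]; linarith [u.1]
    fin_cases k
    · exact h1
    · exact h2
    · exact h2
    · exact h1
  · rw [Fin.sum_univ_four, Fin.sum_univ_four]
    simp only [EPc, EQc, k1, k2, k3, k4]
    have e1 := sum_c O.pX sX
    have e2 := sum_c O.pY sY
    show _ = (Real.pi * I + U) + (Real.pi * I - U) + (Real.pi * I - U) + (Real.pi * I + U)
    linear_combination e1 + e2

/-- The four equations at `c'`. -/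
theorem four_c' (O : Oct X Y) (sX : ∑ k, lgs (X k) 0 = 2 * (Real.pi * I))
    (sY : ∑ k, lgs (Y k) 0 = 2 * (Real.pi * I)) {W : ℂ} (hW : X 0 * Y 0 * exp W = -1)
    (hWi : |W.im| < Real.pi) (k : Fin 4) :
    (EP X).c' k + (EQ Y).c' k =
      (![Real.pi * I + W, Real.pi * I + W, Real.pi * I - W, Real.pi * I - W] : Fin 4 → ℂ) k := by
  have u := abs_lt.1 hWi
  have hx0 := up_ne (O.pX 0)
  have hx1 := up_ne (O.pX 1)
  have ha0 := one_add_ne (O.pX 0)
  have ha1 := one_add_ne (O.pX 1)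
  have hb0 := one_sub_ne (O.pX 0)
  have hb1 := one_sub_ne (O.pX 1)
  have hw : exp W = -(1 - X 1) / (X 0 * (1 + X 1)) := by
    rw [O.Y0] at hW
    field_simp at hW ⊢
    linear_combination hW
  have hwn : exp (-W) = -(X 0 * (1 + X 1)) / (1 - X 1) := by
    rw [exp_neg, hw, inv_div, div_neg, neg_div]
  refine four_eq (S := fun k => (EP X).c' k + (EQ Y).c' k) (T := ![Real.pi * I + W,
    Real.pi * I + W, Real.pi * I - W, Real.pi * I - W]) ?_ ?_ ?_ ?_ k
  · intro k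
    have key : exp ((EP X).c' k + (EQ Y).c' k) =
        shp (X k) 2 * shp (X (k - 1)) 1 * (shp (Y k) 1 * shp (Y (k - 1)) 2) := by
      rw [EPc', EQc', exp_add, exp_add, exp_add, exp_lgs (O.pX _), exp_lgs (O.pX _),
        exp_lgs (O.pY _), exp_lgs (O.pY _)]
    refine key.trans ?_
    fin_cases k
    · show shp (X 0) 2 * shp (X 3) 1 * (shp (Y 0) 1 * shp (Y 3) 2) = exp (Real.pi * I + W)
      rw [exp_add, exp_pi_mul_I, hw, O.sX02, O.sX31, O.sY01, O.sY32]
      field_simp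
    · show shp (X 1) 2 * shp (X 0) 1 * (shp (Y 1) 1 * shp (Y 0) 2) = exp (Real.pi * I + W)
      rw [exp_add, exp_pi_mul_I, hw, O.sX12, shp_1, O.sY11, O.sY02]
      field_simp
    · show shp (X 2) 2 * shp (X 1) 1 * (shp (Y 2) 1 * shp (Y 1) 2) = exp (Real.pi * I - W)
      rw [sub_eq_add_neg, exp_add, exp_pi_mul_I, hwn, O.sX22, shp_1, O.sY21, O.sY12]
      field_simp
    · show shp (X 3) 2 * shp (X 2) 1 * (shp (Y 3) 1 * shp (Y 2) 2) = exp (Real.pi * I - W)
      rw [sub_eq_add_neg, exp_add, exp_pi_mul_I, hwn, O.sX32, O.sX21, O.sY31, O.sY22]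
      field_simp
  · intro k
    show 0 < ((EP X).c' k + (EQ Y).c' k).im
    rw [EPc', EQc', add_im, add_im, add_im]
    have h1 := (lgs_im (O.pX k) 2).1
    have h2 := (lgs_im (O.pX (k - 1)) 1).1
    have h3 := (lgs_im (O.pY k) 1).1
    have h4 := (lgs_im (O.pY (k - 1)) 2).1
    linarith
  · intro k
    have h1 : (Real.pi * I + W).im < 2 * Real.pi := by rw [add_im, im_pi_I]; linarith [u.2]
    have h2 : (Real.pi * I - W).im < 2 * Real.pi := by rw [sub_im, im_pi_I]; linarith [u.1]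
    fin_cases k
    · exact h1
    · exact h1
    · exact h2
    · exact h2
  · rw [Fin.sum_univ_four, Fin.sum_univ_four]
    simp only [EPc', EQc', k1, k2, k3, k4]
    have e1 := sum_c O.pX sX
    have e2 := sum_c O.pY sY
    show _ = (Real.pi * I + W) + (Real.pi * I + W) + (Real.pi * I - W) + (Real.pi * I - W)
    linear_combination e1 + e2

end

end Pool.Agent.AT.G
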