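import Pool.Agent.AT.G.Block

/-!
# The equations of a block: longitudes, meridians and strands
-/

set_option autoImplicit false

namespace Pool.Agent.AT.G

open Complex
open Pool.Agent.H63.VC7.Hyp Pool.Agent.AT.Hyp
open scoped BigOperators

namespace BkH

variable {X Y : Fin 4 → ℂ} {U W q M M' : ℂ}

theorem expU (H : BkH X Y U W q M M') : exp U = -(X 1 * (1 + X 0)) / (1 - X 0) := by
  have O := H.toOct
  have hU := H.hU
  rw [O.Y1] at hU
  have : exp U = -(X 1 * ((1 + X 0) / (1 - X 0))) := by rw [hU, neg_neg]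
  rw [this]
  ring

theorem expW (H : BkH X Y U W q M M') : exp W = -(1 - X 1) / (X 0 * (1 + X 1)) := by
  have O := H.toOct
  have hx0 := up_ne (O.pX 0)
  have ha1 := one_add_ne (O.pX 1)
  have hb1 := one_sub_ne (O.pX 1)
  have hW := H.hW
  rw [O.Y0] at hW
  field_simp at hW ⊢
  linear_combination hW

theorem eq_l (H : BkH X Y U W q M M') : (EP X).c 0 + (EP X).c 3 - Real.pi * I = U := by
  have O := H.toOct
  have hx0 := up_ne (O.pX 0)
  have hx1 := up_ne (O.pX 1)
  have ha0 := one_add_ne (O.pX 0)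
  have ha1 := one_add_ne (O.pX 1)
  have hb0 := one_sub_ne (O.pX 0)
  have hb1 := one_sub_ne (O.pX 1)
  have u := abs_lt.1 H.hUi
  rw [EPc, EPc, k1, k4]
  apply eq_of_exp
  · rw [exp_sub, exp_add, exp_add, exp_add, exp_lgs (O.pX _), exp_lgs (O.pX _), exp_lgs (O.pX _),
      exp_lgs (O.pX _), exp_pi_mul_I, H.expU, shp_1, O.sX32, O.sX31, O.sX22]
    field_simp
  · have e := sum_c O.pX H.sX
    have a1 := lgs_im (O.pX 0) 1
    have a2 := lgs_im (O.pX 0) 2
    have a3 := lgs_im (O.pX 1) 1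
    have a4 := lgs_im (O.pX 1) 2
    have a5 := lgs_im (O.pX 2) 1
    have a6 := lgs_im (O.pX 2) 2
    have a7 := lgs_im (O.pX 3) 1
    have a8 := lgs_im (O.pX 3) 2
    have e' := congrArg im e
    simp only [add_im, im_two_pi_I] at e'
    rw [sub_im, im_pi_I, add_im, add_im, add_im, abs_lt]
    constructor <;> linarith

theorem eq_l' (H : BkH X Y U W q M M') : (EP X).c' 0 + (EP X).c' 1 - Real.pi * I = W := by
  have O := H.toOct
  have hx0 := up_ne (O.pX 0)
  have hx1 := up_ne (O.pX 1)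
  have ha0 := one_add_ne (O.pX 0)
  have ha1 := one_add_ne (O.pX 1)
  have hb0 := one_sub_ne (O.pX 0)
  have hb1 := one_sub_ne (O.pX 1)
  have u := abs_lt.1 H.hWi
  rw [EPc', EPc', k1, k2]
  apply eq_of_exp
  · rw [exp_sub, exp_add, exp_add, exp_add, exp_lgs (O.pX _), exp_lgs (O.pX _), exp_lgs (O.pX _),
      exp_lgs (O.pX _), exp_pi_mul_I, H.expW, O.sX02, O.sX31, O.sX12, shp_1]
    field_simp
  · have e := sum_c O.pX H.sX
    have a1 := lgs_im (O.pX 0) 1
    have a2 := lgs_im (O.pX 0) 2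
    have a3 := lgs_im (O.pX 1) 1
    have a4 := lgs_im (O.pX 1) 2
    have a5 := lgs_im (O.pX 2) 1
    have a6 := lgs_im (O.pX 2) 2
    have a7 := lgs_im (O.pX 3) 1
    have a8 := lgs_im (O.pX 3) 2
    have e' := congrArg im e
    simp only [add_im, im_two_pi_I] at e'
    rw [sub_im, im_pi_I, add_im, add_im, add_im, abs_lt]
    constructor <;> linarith

/-- The part of the meridian at `c`. -/
theorem eq_m (H : BkH X Y U W q M M') : (EP X).c 0 + (EP X).c 1 - Real.pi * I = M := by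
  have O := H.toOct
  have hx0 := up_ne (O.pX 0)
  have hx1 := up_ne (O.pX 1)
  have ha0 := one_add_ne (O.pX 0)
  have ha1 := one_add_ne (O.pX 1)
  have hb0 := one_sub_ne (O.pX 0)
  have hb1 := one_sub_ne (O.pX 1)
  have u := abs_lt.1 H.hMi
  have hm : exp M = (1 + X 1) / ((1 - X 1) * X 0) := by
    have := H.hM
    rw [O.Y0] at this
    field_simp at this ⊢
    linear_combination -this
  rw [EPc, EPc, k1, k2]
  apply eq_of_exp
  · rw [exp_sub, exp_add, exp_add, exp_add, exp_lgs (O.pX _), exp_lgs (O.pX _), exp_lgs (O.pX _),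
      exp_lgs (O.pX _), exp_pi_mul_I, hm, shp_1, shp_1, O.sX32, O.sX02]
    field_simp
  · have e := sum_c O.pX H.sX
    have a1 := lgs_im (O.pX 0) 1
    have a2 := lgs_im (O.pX 0) 2
    have a3 := lgs_im (O.pX 1) 1
    have a4 := lgs_im (O.pX 1) 2
    have a5 := lgs_im (O.pX 2) 1
    have a6 := lgs_im (O.pX 2) 2
    have a7 := lgs_im (O.pX 3) 1
    have a8 := lgs_im (O.pX 3) 2
    have e' := congrArg im e
    simp only [add_im, im_two_pi_I] at e'
    rw [sub_im, im_pi_I, add_im, add_im, add_im, abs_lt]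
    constructor <;> linarith

/-- The part of the meridian at `c'`. -/
theorem eq_m' (H : BkH X Y U W q M M') : (EP X).c' 0 + (EP X).c' 3 - Real.pi * I = M' := by
  have O := H.toOct
  have hx0 := up_ne (O.pX 0)
  have hx1 := up_ne (O.pX 1)
  have ha0 := one_add_ne (O.pX 0)
  have ha1 := one_add_ne (O.pX 1)
  have hb0 := one_sub_ne (O.pX 0)
  have hb1 := one_sub_ne (O.pX 1)
  have u := abs_lt.1 H.hMi'
  have hm : exp M' = X 1 * (1 - X 0) / (1 + X 0) := by
    have := H.hM'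
    rw [O.Y1] at this
    field_simp at this ⊢
    linear_combination -this
  rw [EPc', EPc', k1, k4]
  apply eq_of_exp
  · rw [exp_sub, exp_add, exp_add, exp_add, exp_lgs (O.pX _), exp_lgs (O.pX _), exp_lgs (O.pX _),
      exp_lgs (O.pX _), exp_pi_mul_I, hm, O.sX02, O.sX31, O.sX32, O.sX21]
    field_simp
  · have e := sum_c O.pX H.sX
    have a1 := lgs_im (O.pX 0) 1
    have a2 := lgs_im (O.pX 0) 2
    have a3 := lgs_im (O.pX 1) 1
    have a4 := lgs_im (O.pX 1) 2
    have a5 := lgs_im (O.pX 2) 1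
    have a6 := lgs_im (O.pX 2) 2
    have a7 := lgs_im (O.pX 3) 1
    have a8 := lgs_im (O.pX 3) 2
    have e' := congrArg im e
    simp only [add_im, im_two_pi_I] at e'
    rw [sub_im, im_pi_I, add_im, add_im, add_im, abs_lt]
    constructor <;> linarith

/-! ### Strands -/

theorem one_add_expU (H : BkH X Y U W q M M') :
    1 + exp U = (1 - X 0 - X 1 - X 0 * X 1) / (1 - X 0) := by
  have hb0 := one_sub_ne (H.pX 0)
  rw [H.expU]
  field_simp
  ring

theorem one_add_expW (H : BkH X Y U W q M M') :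
    1 + exp W = -(1 - X 0 - X 1 - X 0 * X 1) / (X 0 * (1 + X 1)) := by
  have hx0 := up_ne (H.pX 0)
  have ha1 := one_add_ne (H.pX 1)
  rw [H.expW]
  field_simp
  ring

/-- `exp (U / 2) = p`, `exp (W / 2) = r`: `exp q = (p + 1/p) / (r + 1/r)`. -/
theorem hq2 (H : BkH X Y U W q M M') :
    exp q * (exp (U / 2) * (1 + exp W)) = exp (W / 2) * (1 + exp U) := by
  have hq := H.hq
  have e1 : exp W = exp (W / 2) * exp (W / 2) := by rw [← exp_add]; congr 1; ring
  have e2 : exp U = exp (U / 2) * exp (U / 2) := by rw [← exp_add]; congr 1; ring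
  have e3 : exp (-(W / 2)) * exp (W / 2) = 1 := by rw [← exp_add]; simp
  have e4 : exp (-(U / 2)) * exp (U / 2) = 1 := by rw [← exp_add]; simp
  rw [e1, e2]
  linear_combination exp (U / 2) * exp (W / 2) * hq - exp q * exp (U / 2) * e3 +
    exp (W / 2) * e4

theorem hV (H : BkH X Y U W q M M') : 1 - X 0 - X 1 - X 0 * X 1 ≠ 0 := by
  intro h0
  have := H.one_add_expU
  rw [h0, zero_div] at this
  exact H.cU this

theorem strand (H : BkH X Y U W q M M') :
    exp q * exp (U / 2) * exp (-(W / 2)) = -(X 0 * (1 + X 1)) / (1 - X 0) := by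
  have hx0 := up_ne (H.pX 0)
  have ha1 := one_add_ne (H.pX 1)
  have hb0 := one_sub_ne (H.pX 0)
  have h := H.hq2
  rw [H.one_add_expU, H.one_add_expW] at h
  have e3 : exp (-(W / 2)) * exp (W / 2) = 1 := by rw [← exp_add]; simp
  have h2 : exp q * exp (U / 2) * exp (-(W / 2)) * (-(1 - X 0 - X 1 - X 0 * X 1) /
      (X 0 * (1 + X 1))) = (1 - X 0 - X 1 - X 0 * X 1) / (1 - X 0) := by
    linear_combination exp (-(W / 2)) * h +
      (1 - X 0 - X 1 - X 0 * X 1) / (1 - X 0) * e3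
  have hV := H.hV
  rw [eq_div_iff hb0]
  field_simp at h2
  linear_combination -h2

/-- The imaginary part of the holonomy of a strand. -/
theorem im_str (H : BkH X Y U W q M M') {A : ℂ}
    (hA : A = (U - W) / 2 + q ∨ A = (U + W) / 2 + q ∨ A = -(U - W) / 2 + q ∨
      A = -(U + W) / 2 + q) : |A.im| < Real.pi := by
  have h := H.hs
  have e : A.im = (U.im - W.im) / 2 + q.im ∨ A.im = (U.im + W.im) / 2 + q.im ∨
      A.im = -(U.im - W.im) / 2 + q.im ∨ A.im = -(U.im + W.im) / 2 + q.im := by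
    have h2 : ∀ z : ℂ, (z / 2).im = z.im / 2 := fun z => by
      rw [show (2 : ℂ) = ((2 : ℝ) : ℂ) by norm_num, div_ofReal_im]
    rcases hA with rfl | rfl | rfl | rfl
    · left; rw [add_im, h2, sub_im]
    · right; left; rw [add_im, h2, add_im]
    · right; right; left; rw [add_im, h2, neg_im, sub_im]
    · right; right; right; rw [add_im, h2, neg_im, add_im]
  have u1 := abs_le.1 (le_refl |U.im|)
  have w1 := abs_le.1 (le_refl |W.im|)
  have q1 := abs_le.1 (le_refl |q.im|)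
  rw [abs_lt]
  rcases e with e | e | e | e <;> rw [e] <;> constructor <;> linarith

theorem eq_s0 (H : BkH X Y U W q M M') :
    Real.pi * I - (EP X).c' 0 - (EP X).a 3 = (U - W) / 2 + q := by
  have O := H.toOct
  have hx0 := up_ne (O.pX 0)
  have hb0 := one_sub_ne (O.pX 0)
  have e0 : Real.pi * I - (EP X).c' 0 - (EP X).a 3 = lgs (X 3) 2 - lgs (X 0) 2 := by
    rw [EPc', EPa, k1]
    linear_combination -lgs_sum (O.pX 3)
  have u := H.im_str (Or.inl rfl)
  have u' := abs_lt.1 u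
  rw [e0]
  apply eq_of_exp
  · have e1 : (U - W) / 2 + q = q + U / 2 + -(W / 2) := by ring
    rw [e1, exp_add, exp_add, H.strand, exp_sub, exp_lgs (O.pX _), exp_lgs (O.pX _), O.sX32,
      O.sX02]
    field_simp
  · have a1 := lgs_im (O.pX 3) 2
    have a2 := lgs_im (O.pX 0) 2
    rw [sub_im, abs_lt]
    constructor <;> linarith

theorem eq_s1 (H : BkH X Y U W q M M') :
    Real.pi * I - (EP X).c 1 - (EP X).a 0 = (U + W) / 2 + q := by
  have O := H.toOct
  have hx0 := up_ne (O.pX 0)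
  have ha1 := one_add_ne (O.pX 1)
  have hb0 := one_sub_ne (O.pX 0)
  have hb1 := one_sub_ne (O.pX 1)
  have e0 : Real.pi * I - (EP X).c 1 - (EP X).a 0 = lgs (X 0) 1 - lgs (X 1) 1 := by
    rw [EPc, EPa, k2]
    linear_combination -lgs_sum (O.pX 0)
  have u := H.im_str (Or.inr (Or.inl rfl))
  have u' := abs_lt.1 u
  rw [e0]
  apply eq_of_exp
  · have e1 : (U + W) / 2 + q = q + U / 2 + -(W / 2) + W := by ring
    rw [e1, exp_add, exp_add, exp_add, H.strand, H.expW, exp_sub, exp_lgs (O.pX _),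
      exp_lgs (O.pX _), shp_1, shp_1]
    field_simp
  · have a1 := lgs_im (O.pX 0) 1
    have a2 := lgs_im (O.pX 1) 1
    rw [sub_im, abs_lt]
    constructor <;> linarith

theorem eq_s2 (H : BkH X Y U W q M M') :
    Real.pi * I - (EP X).c' 2 - (EP X).a 1 = -(U - W) / 2 + q := by
  have O := H.toOct
  have hx0 := up_ne (O.pX 0)
  have hx1 := up_ne (O.pX 1)
  have ha0 := one_add_ne (O.pX 0)
  have ha1 := one_add_ne (O.pX 1)
  have hb0 := one_sub_ne (O.pX 0)
  have hb1 := one_sub_ne (O.pX 1)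
  have e0 : Real.pi * I - (EP X).c' 2 - (EP X).a 1 = lgs (X 1) 2 - lgs (X 2) 2 := by
    rw [EPc', EPa, k3]
    linear_combination -lgs_sum (O.pX 1)
  have u := H.im_str (Or.inr (Or.inr (Or.inl rfl)))
  have u' := abs_lt.1 u
  rw [e0]
  apply eq_of_exp
  · have e1 : -(U - W) / 2 + q = q + U / 2 + -(W / 2) + W - U := by ring
    rw [e1, exp_sub _ U, exp_add, exp_add, exp_add, H.strand, H.expW, H.expU, exp_sub,
      exp_lgs (O.pX _), exp_lgs (O.pX _), O.sX12, O.sX22]
    field_simp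
  · have a1 := lgs_im (O.pX 1) 2
    have a2 := lgs_im (O.pX 2) 2
    rw [sub_im, abs_lt]
    constructor <;> linarith

theorem eq_s3 (H : BkH X Y U W q M M') :
    Real.pi * I - (EP X).c 3 - (EP X).a 2 = -(U + W) / 2 + q := by
  have O := H.toOct
  have hx0 := up_ne (O.pX 0)
  have hx1 := up_ne (O.pX 1)
  have ha0 := one_add_ne (O.pX 0)
  have ha1 := one_add_ne (O.pX 1)
  have hb0 := one_sub_ne (O.pX 0)
  have hb1 := one_sub_ne (O.pX 1)
  have e0 : Real.pi * I - (EP X).c 3 - (EP X).a 2 = lgs (X 2) 1 - lgs (X 3) 1 := by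
    rw [EPc, EPa, k4]
    linear_combination -lgs_sum (O.pX 2)
  have u := H.im_str (Or.inr (Or.inr (Or.inr rfl)))
  have u' := abs_lt.1 u
  rw [e0]
  apply eq_of_exp
  · have e1 : -(U + W) / 2 + q = q + U / 2 + -(W / 2) - U := by ring
    rw [e1, exp_sub _ U, exp_add, exp_add, H.strand, H.expU, exp_sub, exp_lgs (O.pX _),
      exp_lgs (O.pX _), O.sX21, O.sX31]
    field_simp
  · have a1 := lgs_im (O.pX 2) 1
    have a2 := lgs_im (O.pX 3) 1
    rw [sub_im, abs_lt]
    constructor <;> linarith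

/-- **The equations of a block.** -/
theorem block (H : BkH X Y U W q M M')
    (a0 : lgs (X 0) 0 + lgs (Y 0) 0 = Real.pi * I - W)
    (a1 : lgs (X 1) 0 + lgs (Y 1) 0 = Real.pi * I + U)
    (a2 : lgs (X 2) 0 + lgs (Y 2) 0 = Real.pi * I + W)
    (a3 : lgs (X 3) 0 + lgs (Y 3) 0 = Real.pi * I - U) :
    Hyp.Block (Real.pi * I) (EP X) (EQ Y) U W q where
  c0 := four_c H.toOct H.sX H.sY H.hU H.hUi 0
  c1 := four_c H.toOct H.sX H.sY H.hU H.hUi 1
  c2 := four_c H.toOct H.sX H.sY H.hU H.hUi 2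
  c3 := four_c H.toOct H.sX H.sY H.hU H.hUi 3
  c0' := four_c' H.toOct H.sX H.sY H.hW H.hWi 0
  c1' := four_c' H.toOct H.sX H.sY H.hW H.hWi 1
  c2' := four_c' H.toOct H.sX H.sY H.hW H.hWi 2
  c3' := four_c' H.toOct H.sX H.sY H.hW H.hWi 3
  a0 := a0
  a1 := a1
  a2 := a2
  a3 := a3
  l := H.eq_l
  l' := H.eq_l'
  s0 := H.eq_s0
  s1 := H.eq_s1
  s2 := H.eq_s2
  s3 := H.eq_s3

end BkH

end Pool.Agent.AT.G
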