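import Pool.Agent.AT.Hyp
import Pool.Agent.H63.VC.Asym
import Pool.Agent.H63.VC.EndB
import Pool.Agent.H63.VC.Riem
import Pool.Agent.H63.VC.SlowL
import Pool.Agent.H63.VC.SlowU
import Pool.Agent.H63.VC3.CritB
import Pool.Agent.H63.VC3.Upper
import Pool.Agent.H63.VC4.KBN
import Pool.Agent.H63.VC4.UpperN
import Pool.Agent.H63.VC5.Defs
import Pool.Agent.H63.VC6.LocU
import Pool.Agent.H63.VC6.SlotU
import Pool.Agent.H63.VC7.Geo
import Pool.Agent.H63.VC7.Link
import Pool.Agent.H63.VC7.QcLL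
import Pool.Agent.S3.G.FeBw

/-!
# Project AT, geometry: the critical point as input

`cX`, `cY` are the shape parameters of the tetrahedra around the edge `c c'` of the block of an edge
with unknowns `y`, `v`, `w`; around `a_0 a_2` they are `VC7.shx`, `VC7.shy`.
-/

namespace Pool.Agent.AT.G

open Complex Pool.Agent.H63.VC3 Pool.Agent.H63.VC7 Pool.Agent.S3 Pool.Agent.S3.G

variable {m p : ℕ}

/-- The shape parameters of `P`. -/
noncomputable def cX (y v w : ℂ) : Fin 4 → ℂ :=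
  ![I * exp (-(Real.pi * I * w)) * sin (Real.pi * (y + v)) * cos (Real.pi * w) /
      (cos (Real.pi * v) * cos (Real.pi * y)),
    I * exp (Real.pi * I * v) * sin (Real.pi * (y - w)) * cos (Real.pi * v) /
      (cos (Real.pi * w) * cos (Real.pi * y)),
    I * exp (Real.pi * I * w) * sin (Real.pi * (y - v)) * cos (Real.pi * w) /
      (cos (Real.pi * v) * cos (Real.pi * y)),
    I * exp (-(Real.pi * I * v)) * sin (Real.pi * (y + w)) * cos (Real.pi * v) /
      (cos (Real.pi * w) * cos (Real.pi * y))]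

/-- The shape parameters of `P'`. -/
noncomputable def cY (y v w : ℂ) : Fin 4 → ℂ :=
  ![-exp (-(2 * Real.pi * I * w)) / cX y v w 0, -exp (2 * Real.pi * I * v) / cX y v w 1,
    -exp (2 * Real.pi * I * w) / cX y v w 2, -exp (-(2 * Real.pi * I * v)) / cX y v w 3]

/-- The values of `sin π (y ± v)` and `sin π (y ± w)` at an edge with the ends `v`, `w`. -/
structure SV (y v w Q Q' : ℂ) : Prop where
  cy : cos (Real.pi * y) ≠ 0
  cv : cos (Real.pi * v) ≠ 0
  cw : cos (Real.pi * w) ≠ 0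
  sv : sin (Real.pi * (y + v)) * cos (Real.pi * w) =
    exp Q * (cos (Real.pi * v) * cos (Real.pi * y))
  sv' : sin (Real.pi * (y - v)) * cos (Real.pi * w) =
    exp (-Q) * (cos (Real.pi * v) * cos (Real.pi * y))
  sw : sin (Real.pi * (y + w)) * cos (Real.pi * v) =
    exp Q' * (cos (Real.pi * w) * cos (Real.pi * y))
  sw' : sin (Real.pi * (y - w)) * cos (Real.pi * v) =
    exp (-Q') * (cos (Real.pi * w) * cos (Real.pi * y))

theorem SV.symm {y v w Q Q' : ℂ} (h : SV y v w Q Q') : SV y w v Q' Q where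
  cy := h.cy
  cv := h.cw
  cw := h.cv
  sv := h.sw
  sv' := h.sw'
  sw := h.sv
  sw' := h.sv'

theorem SV.neg_left {y v w Q Q' : ℂ} (h : SV y v w Q Q') : SV y (-v) w (-Q) Q' where
  cy := h.cy
  cv := by rw [mul_neg, Complex.cos_neg]; exact h.cv
  cw := h.cw
  sv := by rw [mul_neg, Complex.cos_neg, ← sub_eq_add_neg]; exact h.sv'
  sv' := by rw [mul_neg, Complex.cos_neg, sub_neg_eq_add, neg_neg]; exact h.sv
  sw := by rw [mul_neg, Complex.cos_neg]; exact h.sw
  sw' := by rw [mul_neg, Complex.cos_neg]; exact h.sw'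

/-- Minus half of the logarithmic holonomy of the part of the meridian in a block. -/
noncomputable def mq (y v : ℂ) : ℂ := (he (y + v) - he (y - v)) / 2

/-- What is used about an edge with unknown `y` between nodes with unknowns `v`, `w`. -/
structure Blk (y v w : ℂ) : Prop where
  hy : |y.re| < 1 / 2
  hv : |v.re| < 1 / 2
  hw : |w.re| < 1 / 2
  d1 : fdo (y - v)
  d2 : fdo (y + v)
  d3 : fdo (y - w)
  d4 : fdo (y + w)
  ey : 4 * hh (y + 1 / 2) = he (y - v) + he (y + v) + he (y - w) + he (y + w)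
  mv : |(he (y - v) - he (y + v)).im| < Real.pi
  mw : |(he (y - w) - he (y + w)).im| < Real.pi
  s0 : |((Real.pi * I * v - Real.pi * I * w) + (hh (v + 1 / 2) - hh (w + 1 / 2))).im| < Real.pi
  s1 : |((Real.pi * I * v + Real.pi * I * w) + (hh (v + 1 / 2) - hh (w + 1 / 2))).im| < Real.pi
  s2 : |(-(Real.pi * I * v - Real.pi * I * w) + (hh (v + 1 / 2) - hh (w + 1 / 2))).im| < Real.pi
  s3 : |(-(Real.pi * I * v + Real.pi * I * w) + (hh (v + 1 / 2) - hh (w + 1 / 2))).im| < Real.pi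
  pX : ∀ k, 0 < (cX y v w k).im
  pY : ∀ k, 0 < (cY y v w k).im
  sv : SV y v w (mq y v) (mq y w)
  st : he (y - w) + he (y + w) = 2 * hh (y + 1 / 2) + 2 * hh (w + 1 / 2) - 2 * hh (v + 1 / 2)

/-- The critical point. -/
structure CritT (s t : Fin m → Fin p) (a : Fin p → ℤ) (y : Fin m → ℂ) (v : Fin p → ℂ) :
    Prop where
  st : ∀ j, s j ≠ t j
  ne : ∀ i, (inc s t i).Nonempty
  blk : ∀ j, Blk (y j) (v (s j)) (v (t j))
  ev : ∀ i, 2 * Real.pi * I * (a i * v i + 1) +
    ∑ j ∈ inc s t i, (he (y j - v i) - he (y j + v i)) = 0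

/-- The critical value. -/
noncomputable def WT (s t : Fin m → Fin p) (a : Fin p → ℤ) (y : Fin m → ℂ) (v : Fin p → ℂ) : ℂ :=
  ∑ j, (4 * ff (y j + 1 / 2) - fe (y j - v (s j)) - fe (y j + v (s j)) - fe (y j - v (t j)) -
    fe (y j + v (t j))) + ∑ i, 2 * Real.pi * I * ((a i : ℂ) / 2 * v i ^ 2 + v i)

end Pool.Agent.AT.G
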