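import Pool.Agent.AT.G.Defs
import Pool.Agent.S3.Defs
import Pool.Agent.S3.G.FeBw

/-!
# The critical point of a tree, as used for the hyperbolic structure
-/

set_option autoImplicit false

namespace Pool.Agent.AT.G

open Pool.Agent.S3 Pool.Agent.S3.G
open Complex
open Pool.Agent.H63.VC3 (hh)
open Pool.Agent.H63.VC7 (inc)
open scoped BigOperators

variable {m p : ℕ}

/-- The critical point of the potential function of an alternating tree, with the properties used for
the hyperbolic structure. The coordinates of the critical point are `y j` at the edge `j` and `v i` at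
the node `i`. -/
structure CritS (s t : Fin m → Fin p) (a : Fin p → ℤ) (y : Fin m → ℂ) (v : Fin p → ℂ) :
    Prop where
  st : ∀ j, s j ≠ t j
  ne : ∀ i, (inc s t i).Nonempty
  hy : ∀ j, 0 < (y j).re ∧ (y j).re < 1 / 2
  hv : ∀ i, |(v i).re| < 1 / 2
  dom : ∀ j, (fdo (y j - v (s j)) ∧ fdo (y j + v (s j))) ∧
    (fdo (y j - v (t j)) ∧ fdo (y j + v (t j)))
  ey : ∀ j, 4 * hh (y j + 1 / 2) =
    he (y j - v (s j)) + he (y j + v (s j)) + he (y j - v (t j)) + he (y j + v (t j))
  ev : ∀ i, 2 * Real.pi * I * (a i * v i + 1) +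
    ∑ j ∈ inc s t i, (he (y j - v i) - he (y j + v i)) = 0
  sv : ∀ j, SV (y j) (v (s j)) (v (t j)) (mq (y j) (v (s j))) (mq (y j) (v (t j)))
  pos : ∀ j, Real.pi * |(v (t j)).re| + |(mq (y j) (v (s j))).im| < Real.pi / 2 ∧
    Real.pi * |(v (s j)).re| + |(mq (y j) (v (t j))).im| < Real.pi / 2
  str : ∀ j, Real.pi * |(v (s j)).re| + Real.pi * |(v (t j)).re| +
    |(hh (v (s j) + 1 / 2) - hh (v (t j) + 1 / 2)).im| < Real.pi
  ste : ∀ j, he (y j - v (t j)) + he (y j + v (t j)) =
    2 * hh (y j + 1 / 2) + 2 * hh (v (t j) + 1 / 2) - 2 * hh (v (s j) + 1 / 2)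

/-- The exponents of the shapes of `P`. -/
noncomputable def ex (v w Q Q' : ℂ) : Fin 4 → ℂ :=
  ![-(Real.pi * I * w) + Q, Real.pi * I * v - Q', Real.pi * I * w - Q, -(Real.pi * I * v) + Q']

/-- The exponents of the shapes of `P'`. -/
noncomputable def ey' (v w Q Q' : ℂ) : Fin 4 → ℂ :=
  ![-(Real.pi * I * w) - Q, Real.pi * I * v + Q', Real.pi * I * w + Q, -(Real.pi * I * v) - Q']

/-- The shape parameters of `P` around the edge `c c'`. -/
noncomputable def XX (y v w : ℂ) (k : Fin 4) : ℂ := I * exp (ex v w (mq y v) (mq y w) k)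

/-- The shape parameters of `P'` around the edge `c c'`. -/
noncomputable def YY (y v w : ℂ) (k : Fin 4) : ℂ := I * exp (ey' v w (mq y v) (mq y w) k)

end Pool.Agent.AT.G
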