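import Pool.Agent.AT.G.FlatDefs
import Pool.Agent.H25.RK.DGI
import Pool.Agent.H63.GO.MTaylor
import Pool.Agent.H63.VC4.GaussN
import Pool.Agent.H63.VC4.LaplaceN
import Pool.Agent.H63.VC4.RegCrit
import Pool.Agent.H63.VC4.Vertex
import Pool.Agent.H63.VC7.BlockRC
import Pool.Agent.S3.Asm.Def
import Pool.Agent.S3.Chain
import Pool.Agent.S3.Pot

/-!
# The analytic logarithms of the shape parameters
-/

namespace Pool.Agent.AT.Fl

open Pool.Agent.H63.VC7 hiding FX FY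
open Complex Pool.Agent.H63.VC3 Pool.Agent.S3 Pool.Agent.S3.G Pool.Agent.AT.G Pool.Agent.AT.CV
open Pool.Agent.H63.VC7.Hyp (shp lgs IsFlat)

theorem cos_ne {y : ℂ} (h : |y.re| < 1 / 2) : cos (Real.pi * y) ≠ 0 := by
  intro h0
  obtain ⟨k, hk⟩ := Complex.cos_eq_zero_iff.1 h0
  have hpi : (Real.pi : ℂ) ≠ 0 := Complex.ofReal_ne_zero.2 Real.pi_pos.ne'
  have h1 : y = (((2 * k + 1 : ℝ) / 2 : ℝ) : ℂ) := by
    push_cast
    field_simp at hk ⊢
    linear_combination hk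
  rw [h1, Complex.ofReal_re] at h
  obtain ⟨h2, h3⟩ := abs_lt.1 h
  have h4 : (-1 : ℝ) < k := by linarith
  have h5 : (k : ℝ) < 0 := by linarith
  have h6 : (-1 : ℤ) < k := by exact_mod_cast h4
  have h7 : k < (0 : ℤ) := by exact_mod_cast h5
  omega

theorem sin_half (y : ℂ) : sin (Real.pi * (y + 1 / 2)) = cos (Real.pi * y) := by
  have e : (Real.pi : ℂ) * (y + 1 / 2) = Real.pi * y + Real.pi / 2 := by ring
  rw [e, Complex.sin_add_pi_div_two]

theorem exp_hh_half {y : ℂ} (h : |y.re| < 1 / 2) : exp (hh (y + 1 / 2)) = 2 * cos (Real.pi * y) := by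
  unfold hh
  rw [sin_half]
  exact Complex.exp_log (mul_ne_zero two_ne_zero (cos_ne h))

theorem sin_ne_of {z : ℂ} (h : fdo z) : sin (Real.pi * z) ≠ 0 := by
  intro h0
  have h1 := exp_he (z := z) h
  rw [h0, mul_zero] at h1
  exact exp_ne_zero _ h1

private theorem cs (y u : ℂ) : ∃ a b : ℂ, a ≠ 0 ∧ b ≠ 0 ∧ exp (Real.pi * I * y) = a ∧ exp (Real.pi * I * u) = b ∧
    exp (-(Real.pi * I * u)) = b⁻¹ ∧ exp (-(Real.pi * I * y)) = a⁻¹ ∧ exp (Real.pi * I * (y + u)) = a * b ∧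
    cos (Real.pi * y) = (a + a⁻¹) / 2 ∧ cos (Real.pi * u) = (b + b⁻¹) / 2 ∧
    sin (Real.pi * (y + u)) = (a⁻¹ * b⁻¹ - a * b) * I / 2 := by
  refine ⟨exp (Real.pi * I * y), exp (Real.pi * I * u), exp_ne_zero _, exp_ne_zero _, rfl, rfl, Complex.exp_neg _, Complex.exp_neg _, ?_, ?_, ?_, ?_⟩
  · rw [mul_add, Complex.exp_add]
  · rw [Complex.cos, ← Complex.exp_neg]
    congr 3 <;> ring
  · rw [Complex.cos, ← Complex.exp_neg]
    congr 3 <;> ring
  · rw [Complex.sin, ← Complex.exp_neg, ← Complex.exp_neg, ← Complex.exp_add, ← Complex.exp_add]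
    congr 3
    · congr 1; ring
    · congr 1; ring

private theorem ehalf : exp (Real.pi * I / 2) = I := by
  have : (Real.pi * I / 2 : ℂ) = (Real.pi : ℂ) / 2 * I := by ring
  rw [this, Complex.exp_mul_I, Complex.cos_pi_div_two, Complex.sin_pi_div_two]
  ring

theorem sX_ne0 {y u : ℂ} (h : Dm y u) : sX y u ≠ 0 := by
  unfold sX
  exact div_ne_zero (mul_ne_zero (mul_ne_zero I_ne_zero (exp_ne_zero _)) (cos_ne h.hy)) (sin_ne_of h.d)

theorem sY_ne0 {y u : ℂ} (h : Dm y u) : sY y u ≠ 0 := by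
  unfold sY
  exact div_ne_zero (mul_ne_zero (mul_ne_zero I_ne_zero (exp_ne_zero _)) (sin_ne_of h.d)) (cos_ne h.hy)

theorem one_sub_sX {y u : ℂ} (h : Dm y u) :
    1 - sX y u = -I * exp (Real.pi * I * y) * cos (Real.pi * u) / sin (Real.pi * (y + u)) := by
  obtain ⟨a, b, ha, hb, e1, e2, e3, e4, e5, e6, e7, e8⟩ := cs y u
  have hs := sin_ne_of h.d
  unfold sX
  rw [eq_div_iff hs, sub_mul, div_mul_cancel₀ _ hs, e1, e3, e6, e7, e8]
  field_simp
  ring_nf

theorem one_sub_sY {y u : ℂ} (h : Dm y u) :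
    1 - sY y u = exp (-(Real.pi * I * (y + u))) * cos (Real.pi * u) / cos (Real.pi * y) := by
  obtain ⟨a, b, ha, hb, e1, e2, e3, e4, e5, e6, e7, e8⟩ := cs y u
  have hs := cos_ne h.hy
  unfold sY
  rw [eq_div_iff hs, sub_mul, div_mul_cancel₀ _ hs, e3, Complex.exp_neg, e5, e6, e7, e8]
  have hI := I_sq
  field_simp
  ring_nf
  rw [hI]
  ring

theorem sX_ne1 {y u : ℂ} (h : Dm y u) : 1 - sX y u ≠ 0 := by
  rw [one_sub_sX h]
  exact div_ne_zero (mul_ne_zero (mul_ne_zero (neg_ne_zero.2 I_ne_zero) (exp_ne_zero _)) (cos_ne h.hu)) (sin_ne_of h.d)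

theorem sY_ne1 {y u : ℂ} (h : Dm y u) : 1 - sY y u ≠ 0 := by
  rw [one_sub_sY h]
  exact div_ne_zero (mul_ne_zero (exp_ne_zero _) (cos_ne h.hu)) (cos_ne h.hy)

theorem exp_LX_shp {y u : ℂ} (h : Dm y u) (c : Fin 3) : exp (LX y u c) = shp (sX y u) c := by
  obtain ⟨a, b, ha, hb, e1, e2, e3, e4, e5, e6, e7, e8⟩ := cs y u
  have hs := sin_ne_of h.d
  have hC := cos_ne h.hy
  have hD := cos_ne h.hu
  have hI := I_sq
  have hI0 := I_ne_zero
  fin_cases c
  · change exp (Real.pi * I / 2 - Real.pi * I * u + hh (y + 1 / 2) - he (y + u)) = sX y u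
    rw [Complex.exp_sub, Complex.exp_add, Complex.exp_sub, ehalf, exp_hh_half h.hy, exp_he h.d, sX, Complex.exp_neg]
    field_simp
  · change exp (Real.pi * I / 2 - Real.pi * I * y + he (y + u) - hh (u + 1 / 2)) = 1 / (1 - sX y u)
    rw [one_sub_sX h, Complex.exp_sub, Complex.exp_add, Complex.exp_sub, ehalf, exp_hh_half h.hu, exp_he h.d]
    field_simp
    rw [hI]
  · change exp (Real.pi * I * (y + u) + hh (u + 1 / 2) - hh (y + 1 / 2)) = 1 - 1 / sX y u
    have e9 : 1 - 1 / sX y u = -(1 - sX y u) / sX y u := by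
      have := sX_ne0 h
      field_simp
      ring
    rw [e9, one_sub_sX h, Complex.exp_sub, Complex.exp_add, exp_hh_half h.hu, exp_hh_half h.hy, sX, e5, e1, e3]
    field_simp

theorem exp_LY_shp {y u : ℂ} (h : Dm y u) (c : Fin 3) : exp (LY y u c) = shp (sY y u) c := by
  obtain ⟨a, b, ha, hb, e1, e2, e3, e4, e5, e6, e7, e8⟩ := cs y u
  have hs := sin_ne_of h.d
  have hC := cos_ne h.hy
  have hD := cos_ne h.hu
  have hI := I_sq
  have hI0 := I_ne_zero
  fin_cases c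
  · change exp (Real.pi * I / 2 - Real.pi * I * u + he (y + u) - hh (y + 1 / 2)) = sY y u
    rw [Complex.exp_sub, Complex.exp_add, Complex.exp_sub, ehalf, exp_hh_half h.hy, exp_he h.d, sY, Complex.exp_neg]
    field_simp
  · change exp (Real.pi * I * (y + u) + hh (y + 1 / 2) - hh (u + 1 / 2)) = 1 / (1 - sY y u)
    rw [one_sub_sY h, Complex.exp_sub, Complex.exp_add, exp_hh_half h.hu, exp_hh_half h.hy, Complex.exp_neg]
    field_simp
  · change exp (Real.pi * I / 2 - Real.pi * I * y + hh (u + 1 / 2) - he (y + u)) = 1 - 1 / sY y u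
    have e9 : 1 - 1 / sY y u = -(1 - sY y u) / sY y u := by
      have := sY_ne0 h
      field_simp
      ring
    rw [e9, one_sub_sY h, Complex.exp_sub, Complex.exp_add, Complex.exp_sub, ehalf, exp_hh_half h.hu, exp_he h.d, sY, Complex.exp_neg, e5, e1, e3]
    field_simp
    rw [hI]

/-- A flattening from an analytic logarithm. -/
theorem flat_of {z : ℂ} {l : Fin 3 → ℂ} (h : ∀ c, exp (l c) = shp z c) (hs : l 0 + l 1 + l 2 = Real.pi * I)
    {n : Fin 3 → ℤ} (hn : n 0 + n 1 + n 2 = -1) : IsFlat z fun c => l c + n c * (Real.pi * I) := by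
  refine ⟨fun c => ?_, ?_⟩
  · have h2 : shp z c ≠ 0 := by
      rw [← h c]
      exact exp_ne_zero _
    have h3 : exp (l c) = exp (lgs z c) := by
      rw [h c, lgs, Complex.exp_log h2]
    obtain ⟨m, hm⟩ := Complex.exp_eq_exp_iff_exists_int.1 h3
    refine ⟨2 * m + n c, ?_⟩
    push_cast
    linear_combination hm
  · have h2 : ((n 0 : ℂ) + n 1 + n 2) = -1 := by exact_mod_cast congrArg (fun z : ℤ => (z : ℂ)) hn
    linear_combination hs + (Real.pi * I) * h2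

theorem LX_sum (y u : ℂ) : LX y u 0 + LX y u 1 + LX y u 2 = Real.pi * I := by
  change (Real.pi * I / 2 - Real.pi * I * u + hh (y + 1 / 2) - he (y + u)) + (Real.pi * I / 2 - Real.pi * I * y + he (y + u) - hh (u + 1 / 2)) +
    (Real.pi * I * (y + u) + hh (u + 1 / 2) - hh (y + 1 / 2)) = _
  ring

theorem LY_sum (y u : ℂ) : LY y u 0 + LY y u 1 + LY y u 2 = Real.pi * I := by
  change (Real.pi * I / 2 - Real.pi * I * u + he (y + u) - hh (y + 1 / 2)) + (Real.pi * I * (y + u) + hh (y + 1 / 2) - hh (u + 1 / 2)) +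
    (Real.pi * I / 2 - Real.pi * I * y + hh (u + 1 / 2) - he (y + u)) = _
  ring

/-- The four pairs. -/
theorem dm_su {y v w : ℂ} (h : Blk y v w) (k : Fin 4) : Dm y (su v w k) := by
  have hv : |(-v).re| < 1 / 2 := by rw [neg_re, abs_neg]; exact h.hv
  have hw : |(-w).re| < 1 / 2 := by rw [neg_re, abs_neg]; exact h.hw
  fin_cases k
  · exact ⟨h.hy, h.hv, h.d2⟩
  · exact ⟨h.hy, hw, by change fdo (y + -w); rw [← sub_eq_add_neg]; exact h.d3⟩
  · exact ⟨h.hy, h.hw, h.d4⟩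
  · exact ⟨h.hy, hv, by change fdo (y + -v); rw [← sub_eq_add_neg]; exact h.d1⟩

theorem isFlat_X {y v w : ℂ} (h : Blk y v w) (ms mt al be : ℤ) (k : Fin 4) :
    IsFlat (shx y v w k) (FX y v w ms mt al be k) := by
  rw [shx_su]
  exact flat_of (exp_LX_shp (dm_su h k)) (LX_sum _ _) (BlockRC_nX ms mt al be k)

theorem isFlat_Y {y v w : ℂ} (h : Blk y v w) (ms mt al be : ℤ) (k : Fin 4) :
    IsFlat (shy y v w k) (FY y v w ms mt al be k) := by
  rw [shy_su]
  exact flat_of (exp_LY_shp (dm_su h k)) (LY_sum _ _) (BlockRC_nY ms mt al be k)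

end Pool.Agent.AT.Fl
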