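import Pool.Agent.AT.G.Block2

/-!
# The hyperbolic structure
-/

set_option autoImplicit false

namespace Pool.Agent.AT.G

open Pool.Agent.S3 Pool.Agent.S3.G
open Complex
open Pool.Agent.H63.VC3 (hh)
open Pool.Agent.H63.VC7 (inc)
open Pool.Agent.H63.VC7.Hyp Pool.Agent.AT.Hyp
open scoped BigOperators

/-! ### Algebra -/

/-- The relation between the two holonomies. -/
theorem SV.rel {y v w Q Q' : ℂ} (h : SV y v w Q Q') :
    exp Q' * (exp (Real.pi * I * w) * exp Q - I) =
      -I * exp (Real.pi * I * v) * (exp (Real.pi * I * w) * exp Q + I) := by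
  have e1 : exp (Real.pi * I * w) = cos (Real.pi * w) + sin (Real.pi * w) * I := by
    rw [← exp_mul_I]; congr 1; ring
  have e2 : exp (Real.pi * I * v) = cos (Real.pi * v) + sin (Real.pi * v) * I := by
    rw [← exp_mul_I]; congr 1; ring
  have e3 : exp Q * exp (-Q) = 1 := by rw [← exp_add]; simp
  have p1 := sin_sq_add_cos_sq (Real.pi * v : ℂ)
  have p2 := sin_sq_add_cos_sq (Real.pi * w : ℂ)
  have h1 := h.sv
  have h2 := h.sv'
  have h3 := h.sw
  rw [mul_add, Complex.sin_add] at h1
  rw [mul_sub, Complex.sin_sub] at h2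
  rw [mul_add, Complex.sin_add] at h3
  rw [e1, e2]
  have hy := h.cy
  have hv := h.cv
  have hw := h.cw
  generalize exp Q = P at *
  generalize exp (-Q) = P' at *
  generalize exp Q' = R at *
  generalize sin (Real.pi * (y : ℂ)) = S at *
  generalize cos (Real.pi * (y : ℂ)) = C at *
  generalize sin (Real.pi * (v : ℂ)) = b at *
  generalize cos (Real.pi * (v : ℂ)) = a at *
  generalize sin (Real.pi * (w : ℂ)) = d at *
  generalize cos (Real.pi * (w : ℂ)) = c at *
  obtain ⟨T, hT⟩ : ∃ T, S = T * C := ⟨S / C, (div_mul_cancel₀ _ hy).symm⟩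
  obtain ⟨tb, hb⟩ : ∃ tb, b = tb * a := ⟨b / a, (div_mul_cancel₀ _ hv).symm⟩
  obtain ⟨td, hd⟩ : ∃ td, d = td * c := ⟨d / c, (div_mul_cancel₀ _ hw).symm⟩
  subst hT hb hd
  have aC : a * C ≠ 0 := mul_ne_zero hv hy
  have cC : c * C ≠ 0 := mul_ne_zero hw hy
  have hP : P = (T + tb) * c := mul_right_cancel₀ aC (by linear_combination -h1)
  have hP' : P' = (T - tb) * c := mul_right_cancel₀ aC (by linear_combination -h2)
  have hR : R = (T + td) * a := mul_right_cancel₀ cC (by linear_combination -h3)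
  subst hP hP' hR
  have hN : c ^ 2 * (1 + td ^ 2) - 1 = 0 := by linear_combination p2
  have hK : T ^ 2 - tb ^ 2 - td ^ 2 - 1 = 0 := by
    have h4 : c ^ 2 * (T ^ 2 - tb ^ 2 - td ^ 2 - 1) = 0 := by
      linear_combination e3 - hN
    exact (mul_eq_zero.1 h4).resolve_left (pow_ne_zero _ hw)
  have hI : I ^ 2 + 1 = 0 := by rw [I_sq]; ring
  have hne : 1 - I * td ≠ 0 := by
    intro h0
    have : c ^ 2 * ((1 - I * td) * (1 + I * td)) = 1 := by
      linear_combination hN - c ^ 2 * td ^ 2 * hI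
    rw [h0, zero_mul, mul_zero] at this
    exact zero_ne_one this
  generalize I = i at *
  rw [← sub_eq_zero]
  refine (mul_eq_zero.1 (?_ : _ * (1 - i * td) = 0)).resolve_right hne
  linear_combination a * hK + a * (T + tb) * (T + td + i - tb) * hN +
    a * ((T + td) * (td - c ^ 2 * (T + tb) * td ^ 2) + 1 +
      tb * (c ^ 2 * (T + tb) * (1 + td ^ 2) + i + td) +
      (i ^ 2 + 1) * tb * (-(c ^ 2 * (T + tb)) * td ^ 2 - td) +
      (i - tb) * (-(c ^ 2 * (T + tb)) * td ^ 2 - td)) * hI

/-! ### The shapes -/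

/-- The conditions on the imaginary parts. -/
structure PosC (v w Q Q' : ℂ) : Prop where
  p1 : Real.pi * |w.re| + |Q.im| < Real.pi / 2
  p2 : Real.pi * |v.re| + |Q'.im| < Real.pi / 2

theorem im_pi_I_mul (w : ℂ) : (Real.pi * I * w).im = Real.pi * w.re := by
  have : (Real.pi * I * w : ℂ) = ((Real.pi : ℝ) : ℂ) * (I * w) := by ring
  rw [this, im_ofReal_mul, I_mul_im]

theorem PosC.ex_im {v w Q Q' : ℂ} (h : PosC v w Q Q') (k : Fin 4) :
    |(ex v w Q Q' k).im| < Real.pi / 2 ∧ |(ey' v w Q Q' k).im| < Real.pi / 2 := by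
  have h1 := h.p1
  have h2 := h.p2
  have hpi := Real.pi_pos
  have e1 : |Real.pi * w.re| = Real.pi * |w.re| := by rw [abs_mul, abs_of_pos hpi]
  have e2 : |Real.pi * v.re| = Real.pi * |v.re| := by rw [abs_mul, abs_of_pos hpi]
  rw [← e1] at h1
  rw [← e2] at h2
  have a1 := abs_le.1 (le_refl |Real.pi * w.re|)
  have a2 := abs_le.1 (le_refl |Real.pi * v.re|)
  have a3 := abs_le.1 (le_refl |Q.im|)
  have a4 := abs_le.1 (le_refl |Q'.im|)
  fin_cases k
  · constructor
    · show |(-(Real.pi * I * w) + Q).im| < Real.pi / 2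
      rw [add_im, neg_im, im_pi_I_mul, abs_lt]
      constructor <;> linarith
    · show |(-(Real.pi * I * w) - Q).im| < Real.pi / 2
      rw [sub_im, neg_im, im_pi_I_mul, abs_lt]
      constructor <;> linarith
  · constructor
    · show |(Real.pi * I * v - Q').im| < Real.pi / 2
      rw [sub_im, im_pi_I_mul, abs_lt]
      constructor <;> linarith
    · show |(Real.pi * I * v + Q').im| < Real.pi / 2
      rw [add_im, im_pi_I_mul, abs_lt]
      constructor <;> linarith
  · constructor
    · show |(Real.pi * I * w - Q).im| < Real.pi / 2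
      rw [sub_im, im_pi_I_mul, abs_lt]
      constructor <;> linarith
    · show |(Real.pi * I * w + Q).im| < Real.pi / 2
      rw [add_im, im_pi_I_mul, abs_lt]
      constructor <;> linarith
  · constructor
    · show |(-(Real.pi * I * v) + Q').im| < Real.pi / 2
      rw [add_im, neg_im, im_pi_I_mul, abs_lt]
      constructor <;> linarith
    · show |(-(Real.pi * I * v) - Q').im| < Real.pi / 2
      rw [sub_im, neg_im, im_pi_I_mul, abs_lt]
      constructor <;> linarith

theorem im_I_exp {x : ℂ} (h : |x.im| < Real.pi / 2) : 0 < (I * exp x).im := by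
  rw [I_mul_im, exp_re]
  exact mul_pos (Real.exp_pos _) (Real.cos_pos_of_mem_Ioo (abs_lt.1 h))

theorem log_I_exp {x : ℂ} (h : |x.im| < Real.pi / 2) :
    lgs (I * exp x) 0 = Real.pi / 2 * I + x := by
  have h1 := abs_lt.1 h
  have hpi := Real.pi_pos
  have e : I * exp x = exp (Real.pi / 2 * I + x) := by
    rw [exp_add, exp_pi_div_two_mul_I]
  have ei : (Real.pi / 2 * I + x : ℂ).im = Real.pi / 2 + x.im := by
    have : (Real.pi / 2 * I + x : ℂ) = ((Real.pi / 2 : ℝ) : ℂ) * I + x := by push_cast; ring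
    rw [this, add_im, im_ofReal_mul, I_im, mul_one]
  show log (I * exp x) = _
  rw [e]
  apply log_exp
  · rw [ei]; linarith
  · rw [ei]; linarith

/-- The shapes around `c c'`, from the holonomies. -/
noncomputable def Xe (v w Q Q' : ℂ) (k : Fin 4) : ℂ := I * exp (ex v w Q Q' k)

/-- The same for `P'`. -/
noncomputable def Ye (v w Q Q' : ℂ) (k : Fin 4) : ℂ := I * exp (ey' v w Q Q' k)

theorem XX_eq (y v w : ℂ) : XX y v w = Xe v w (mq y v) (mq y w) := rfl

theorem YY_eq (y v w : ℂ) : YY y v w = Ye v w (mq y v) (mq y w) := rfl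

section

variable (v w Q Q' : ℂ)

theorem Xe0 : Xe v w Q Q' 0 = I * exp Q / exp (Real.pi * I * w) := by
  show I * exp (-(Real.pi * I * w) + Q) = _
  rw [exp_add, exp_neg]
  field_simp

theorem Xe1 : Xe v w Q Q' 1 = I * exp (Real.pi * I * v) / exp Q' := by
  show I * exp (Real.pi * I * v - Q') = _
  rw [exp_sub]
  ring

theorem Xe2 : Xe v w Q Q' 2 = I * exp (Real.pi * I * w) / exp Q := by
  show I * exp (Real.pi * I * w - Q) = _
  rw [exp_sub]
  ring

theorem Xe3 : Xe v w Q Q' 3 = I * exp Q' / exp (Real.pi * I * v) := by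
  show I * exp (-(Real.pi * I * v) + Q') = _
  rw [exp_add, exp_neg]
  field_simp

theorem Ye0 : Ye v w Q Q' 0 = I / (exp (Real.pi * I * w) * exp Q) := by
  show I * exp (-(Real.pi * I * w) - Q) = _
  rw [exp_sub, exp_neg]
  field_simp

theorem Ye1 : Ye v w Q Q' 1 = I * exp (Real.pi * I * v) * exp Q' := by
  show I * exp (Real.pi * I * v + Q') = _
  rw [exp_add]
  ring

theorem Ye2 : Ye v w Q Q' 2 = I * exp (Real.pi * I * w) * exp Q := by
  show I * exp (Real.pi * I * w + Q) = _
  rw [exp_add]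
  ring

theorem Ye3 : Ye v w Q Q' 3 = I / (exp (Real.pi * I * v) * exp Q') := by
  show I * exp (-(Real.pi * I * v) - Q') = _
  rw [exp_sub, exp_neg]
  field_simp

end

theorem oct_of {y v w Q Q' : ℂ} (h : SV y v w Q Q') (hp : PosC v w Q Q') :
    Oct (Xe v w Q Q') (Ye v w Q Q') := by
  have r1 := h.rel
  have r2 := h.neg_left.rel
  have n1 : exp (Real.pi * I * (-v)) = (exp (Real.pi * I * v))⁻¹ := by
    rw [mul_neg, exp_neg]
  rw [n1, exp_neg Q] at r2
  have hP := exp_ne_zero Q
  have hR := exp_ne_zero Q'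
  have hr := exp_ne_zero (Real.pi * I * w)
  have hpp := exp_ne_zero (Real.pi * I * v)
  have hI := I_sq
  refine ⟨fun k => im_I_exp (hp.ex_im k).1, fun k => im_I_exp (hp.ex_im k).2, ?_, ?_, ?_, ?_, ?_,
    ?_⟩
  · rw [Xe2, Xe0]
    field_simp
    exact hI
  · rw [Xe3, Xe1]
    field_simp
    exact hI
  · rw [Ye0, Xe1]
    generalize exp Q = P at *
    generalize exp Q' = R at *
    generalize exp (Real.pi * I * w) = r at *
    generalize exp (Real.pi * I * v) = p at *
    field_simp
    linear_combination -r1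
  · rw [Ye1, Xe0]
    generalize exp Q = P at *
    generalize exp Q' = R at *
    generalize exp (Real.pi * I * w) = r at *
    generalize exp (Real.pi * I * v) = p at *
    field_simp at r2 ⊢
    linear_combination I * r2 - (r + I * P) * hI
  · rw [Ye2, Xe3]
    generalize exp Q = P at *
    generalize exp Q' = R at *
    generalize exp (Real.pi * I * w) = r at *
    generalize exp (Real.pi * I * v) = p at *
    field_simp
    linear_combination r1 - (r * P * R + p) * hI
  · rw [Ye3, Xe2]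
    generalize exp Q = P at *
    generalize exp Q' = R at *
    generalize exp (Real.pi * I * w) = r at *
    generalize exp (Real.pi * I * v) = p at *
    field_simp at r2 ⊢
    linear_combination -I * r2 + (I * P - p * R * P) * hI

/-! ### The equations of a block -/

theorem two_cos_eq (x : ℂ) : 2 * cos (Real.pi * x) =
    exp (Real.pi * I * x) + exp (-(Real.pi * I * x)) := by
  rw [Complex.two_cos]
  congr 1
  · congr 1; ring
  · congr 1; ring

/-- All properties of the shapes of a block. -/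
theorem bkH_of {y v w Q Q' : ℂ} (h : SV y v w Q Q') (hp : PosC v w Q Q')
    (hv : |v.re| < 1 / 2) (hw : |w.re| < 1 / 2)
    (hs : Real.pi * |v.re| + Real.pi * |w.re| + |(hh (v + 1 / 2) - hh (w + 1 / 2)).im| <
      Real.pi) :
    BkH (Xe v w Q Q') (Ye v w Q Q') (2 * Real.pi * I * v) (2 * Real.pi * I * w)
      (hh (v + 1 / 2) - hh (w + 1 / 2)) (-2 * Q) (-2 * Q') where
  toOct := oct_of h hp
  hU := by
    rw [Xe1, Ye1]
    have e : exp (2 * Real.pi * I * v) = exp (Real.pi * I * v) * exp (Real.pi * I * v) := by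
      rw [← exp_add]; congr 1; ring
    have hR := exp_ne_zero Q'
    rw [e]
    field_simp
    linear_combination I_sq
  hW := by
    rw [Xe0, Ye0]
    have e : exp (2 * Real.pi * I * w) = exp (Real.pi * I * w) * exp (Real.pi * I * w) := by
      rw [← exp_add]; congr 1; ring
    have hR := exp_ne_zero Q
    have hr := exp_ne_zero (Real.pi * I * w)
    rw [e]
    field_simp
    exact I_sq
  cU := by
    have e : exp (2 * Real.pi * I * v) = exp (Real.pi * I * v) * exp (Real.pi * I * v) := by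
      rw [← exp_add]; congr 1; ring
    have e2 : exp (Real.pi * I * v) * exp (-(Real.pi * I * v)) = 1 := by
      rw [← exp_add]; simp
    have e3 : 1 + exp (2 * Real.pi * I * v) = exp (Real.pi * I * v) * (2 * cos (Real.pi * v)) := by
      rw [two_cos_eq, e]
      linear_combination -e2
    rw [e3]
    exact mul_ne_zero (exp_ne_zero _) (mul_ne_zero two_ne_zero h.cv)
  hUi := by
    have : (2 * Real.pi * I * v : ℂ) = ((2 : ℝ) : ℂ) * (Real.pi * I * v) := by push_cast; ring
    rw [this, im_ofReal_mul, im_pi_I_mul, abs_mul, abs_mul, abs_two, abs_of_pos Real.pi_pos]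
    nlinarith [Real.pi_pos]
  hWi := by
    have : (2 * Real.pi * I * w : ℂ) = ((2 : ℝ) : ℂ) * (Real.pi * I * w) := by push_cast; ring
    rw [this, im_ofReal_mul, im_pi_I_mul, abs_mul, abs_mul, abs_two, abs_of_pos Real.pi_pos]
    nlinarith [Real.pi_pos]
  hq := by
    have hc : ∀ x : ℂ, cos (Real.pi * x) ≠ 0 → exp (hh (x + 1 / 2)) = 2 * cos (Real.pi * x) := by
      intro x hx
      have e : 2 * sin (Real.pi * (x + 1 / 2)) = 2 * cos (Real.pi * x) := by
        rw [← Complex.sin_add_pi_div_two]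
        congr 2
        ring
      unfold hh
      rw [e, exp_log (mul_ne_zero two_ne_zero hx)]
    have e1 : (2 * Real.pi * I * w / 2 : ℂ) = Real.pi * I * w := by ring
    have e2 : (2 * Real.pi * I * v / 2 : ℂ) = Real.pi * I * v := by ring
    rw [e1, e2, ← two_cos_eq, ← two_cos_eq, exp_sub, hc _ h.cv, hc _ h.cw,
      div_mul_cancel₀ _ (mul_ne_zero two_ne_zero h.cw)]
  hs := by
    have e1 : (2 * Real.pi * I * v : ℂ) = ((2 : ℝ) : ℂ) * (Real.pi * I * v) := by
      push_cast; ring
    have e2 : (2 * Real.pi * I * w : ℂ) = ((2 : ℝ) : ℂ) * (Real.pi * I * w) := by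
      push_cast; ring
    rw [e1, e2, im_ofReal_mul, im_ofReal_mul, im_pi_I_mul, im_pi_I_mul, abs_mul, abs_mul, abs_mul,
      abs_mul, abs_two, abs_of_pos Real.pi_pos]
    linarith
  sX := by
    rw [Fin.sum_univ_four]
    unfold Xe
    rw [log_I_exp (hp.ex_im 0).1, log_I_exp (hp.ex_im 1).1, log_I_exp (hp.ex_im 2).1,
      log_I_exp (hp.ex_im 3).1]
    have e0 : ex v w Q Q' 0 = -(Real.pi * I * w) + Q := rfl
    have e1 : ex v w Q Q' 1 = Real.pi * I * v - Q' := rfl
    have e2 : ex v w Q Q' 2 = Real.pi * I * w - Q := rfl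
    have e3 : ex v w Q Q' 3 = -(Real.pi * I * v) + Q' := rfl
    rw [e0, e1, e2, e3]
    ring
  sY := by
    rw [Fin.sum_univ_four]
    unfold Ye
    rw [log_I_exp (hp.ex_im 0).2, log_I_exp (hp.ex_im 1).2, log_I_exp (hp.ex_im 2).2,
      log_I_exp (hp.ex_im 3).2]
    have e0 : ey' v w Q Q' 0 = -(Real.pi * I * w) - Q := rfl
    have e1 : ey' v w Q Q' 1 = Real.pi * I * v + Q' := rfl
    have e2 : ey' v w Q Q' 2 = Real.pi * I * w + Q := rfl
    have e3 : ey' v w Q Q' 3 = -(Real.pi * I * v) - Q' := rfl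
    rw [e0, e1, e2, e3]
    ring
  hM := by
    rw [Ye0, Xe0]
    have e : exp (-(2 * Q)) * (exp Q * exp Q) = 1 := by
      rw [← exp_add, ← exp_add, ← exp_zero]; congr 1; ring
    have hR := exp_ne_zero Q
    have hr := exp_ne_zero (Real.pi * I * w)
    rw [neg_mul]
    field_simp
    linear_combination -e
  hM' := by
    rw [Ye1, Xe1]
    have e : exp (-(2 * Q')) * (exp Q' * exp Q') = 1 := by
      rw [← exp_add, ← exp_add, ← exp_zero]; congr 1; ring
    have hR := exp_ne_zero Q'
    rw [neg_mul]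
    field_simp
    linear_combination -e
  hMi := by
    have : (-2 * Q : ℂ) = ((-2 : ℝ) : ℂ) * Q := by push_cast; ring
    rw [this, im_ofReal_mul, abs_mul]
    have h1 := hp.p1
    have h2 : 0 ≤ Real.pi * |w.re| := mul_nonneg Real.pi_pos.le (abs_nonneg _)
    norm_num
    linarith
  hMi' := by
    have : (-2 * Q' : ℂ) = ((-2 : ℝ) : ℂ) * Q' := by push_cast; ring
    rw [this, im_ofReal_mul, abs_mul]
    have h1 := hp.p2
    have h2 : 0 ≤ Real.pi * |v.re| := mul_nonneg Real.pi_pos.le (abs_nonneg _)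
    norm_num
    linarith

theorem block_of {y v w Q Q' : ℂ} (h : SV y v w Q Q') (hp : PosC v w Q Q')
    (hv : |v.re| < 1 / 2) (hw : |w.re| < 1 / 2)
    (hs : Real.pi * |v.re| + Real.pi * |w.re| + |(hh (v + 1 / 2) - hh (w + 1 / 2)).im| <
      Real.pi) :
    Hyp.Block (Real.pi * I) (EP (Xe v w Q Q')) (EQ (Ye v w Q Q')) (2 * Real.pi * I * v)
      (2 * Real.pi * I * w) (hh (v + 1 / 2) - hh (w + 1 / 2)) := by
  refine (bkH_of h hp hv hw hs).block ?_ ?_ ?_ ?_
  · unfold Xe Ye
    rw [log_I_exp (hp.ex_im 0).1, log_I_exp (hp.ex_im 0).2]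
    have e0 : ex v w Q Q' 0 = -(Real.pi * I * w) + Q := rfl
    have e1 : ey' v w Q Q' 0 = -(Real.pi * I * w) - Q := rfl
    rw [e0, e1]
    ring
  · unfold Xe Ye
    rw [log_I_exp (hp.ex_im 1).1, log_I_exp (hp.ex_im 1).2]
    have e0 : ex v w Q Q' 1 = Real.pi * I * v - Q' := rfl
    have e1 : ey' v w Q Q' 1 = Real.pi * I * v + Q' := rfl
    rw [e0, e1]
    ring
  · unfold Xe Ye
    rw [log_I_exp (hp.ex_im 2).1, log_I_exp (hp.ex_im 2).2]
    have e0 : ex v w Q Q' 2 = Real.pi * I * w - Q := rfl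
    have e1 : ey' v w Q Q' 2 = Real.pi * I * w + Q := rfl
    rw [e0, e1]
    ring
  · unfold Xe Ye
    rw [log_I_exp (hp.ex_im 3).1, log_I_exp (hp.ex_im 3).2]
    have e0 : ex v w Q Q' 3 = -(Real.pi * I * v) + Q' := rfl
    have e1 : ey' v w Q Q' 3 = -(Real.pi * I * v) - Q' := rfl
    rw [e0, e1]
    ring

/-! ### The structure -/

variable {m p : ℕ} {s t : Fin m → Fin p} {a : Fin p → ℤ} {y : Fin m → ℂ} {v : Fin p → ℂ}

theorem CritS.posC (h : CritS s t a y v) (j : Fin m) :
    PosC (v (s j)) (v (t j)) (mq (y j) (v (s j))) (mq (y j) (v (t j))) :=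
  ⟨(h.pos j).1, (h.pos j).2⟩

theorem sum_inc_ite (s t : Fin m → Fin p) (st : ∀ j, s j ≠ t j) (i : Fin p) (f : Fin m → ℂ) :
    ∑ j ∈ inc s t i, f j =
      ∑ j, ((if s j = i then f j else 0) + (if t j = i then f j else 0)) := by
  unfold inc
  rw [Finset.sum_filter]
  refine Finset.sum_congr rfl fun j _ => ?_
  by_cases h1 : s j = i
  · have h2 : t j ≠ i := fun h2 => st j (h1.trans h2.symm)
    simp [h1, h2]
  · by_cases h2 : t j = i
    · simp [h1, h2]
    · simp [h1, h2]

/-- **The hyperbolic structure.** -/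
theorem CritS.isGeom (h : CritS s t a y v) :
    Hyp.IsGeom s t a (fun j => XX (y j) (v (s j)) (v (t j)))
      (fun j => YY (y j) (v (s j)) (v (t j))) := by
  have hB := fun j => bkH_of (h.sv j) (h.posC j) (h.hv (s j)) (h.hv (t j)) (h.str j)
  refine ⟨fun j k => ⟨(hB j).pX k, (hB j).pY k⟩, fun j => ⟨(hB j).sX, (hB j).sY⟩,
    fun i => 2 * Real.pi * I * v i, fun i => hh (v i + 1 / 2), ?_⟩
  refine ⟨fun j => block_of (h.sv j) (h.posC j) (h.hv (s j)) (h.hv (t j)) (h.str j), ?_⟩
  intro i
  have hev := h.ev i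
  rw [sum_inc_ite s t h.st] at hev
  have hj : ∀ j, ((if s j = i then (EP (XX (y j) (v (s j)) (v (t j)))).c 0 +
      (EP (XX (y j) (v (s j)) (v (t j)))).c 1 - Real.pi * I else 0) +
      (if t j = i then (EP (XX (y j) (v (s j)) (v (t j)))).c' 0 +
      (EP (XX (y j) (v (s j)) (v (t j)))).c' 3 - Real.pi * I else 0)) =
      ((if s j = i then he (y j - v i) - he (y j + v i) else 0) +
        (if t j = i then he (y j - v i) - he (y j + v i) else 0)) := by
    intro j
    congr 1
    · by_cases h1 : s j = i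
      · rw [if_pos h1, if_pos h1]
        have := (hB j).eq_m
        rw [← XX_eq] at this
        rw [this, ← h1]
        unfold mq
        ring
      · rw [if_neg h1, if_neg h1]
    · by_cases h1 : t j = i
      · rw [if_pos h1, if_pos h1]
        have := (hB j).eq_m'
        rw [← XX_eq] at this
        rw [this, ← h1]
        unfold mq
        ring
      · rw [if_neg h1, if_neg h1]
  show (∑ j, ((if s j = i then (EP (XX (y j) (v (s j)) (v (t j)))).c 0 +
      (EP (XX (y j) (v (s j)) (v (t j)))).c 1 - Real.pi * I else 0) +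
      (if t j = i then (EP (XX (y j) (v (s j)) (v (t j)))).c' 0 +
      (EP (XX (y j) (v (s j)) (v (t j)))).c' 3 - Real.pi * I else 0))) +
      a i * (2 * Real.pi * I * v i) = -(2 * (Real.pi * I))
  rw [Finset.sum_congr rfl fun j _ => hj j]
  linear_combination hev

end Pool.Agent.AT.G
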