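import Pool.Agent.AT.G.DefsS

/-!
# The equations of a block, from the shapes around `c c'`
-/

set_option autoImplicit false

namespace Pool.Agent.AT.G

open Complex
open Pool.Agent.H63.VC7.Hyp Pool.Agent.AT.Hyp
open scoped BigOperators

/-! ### Logarithms of shape parameters -/

section

variable {z : ℂ}

theorem up_ne (hz : 0 < z.im) : z ≠ 0 := by
  intro h
  rw [h] at hz
  simp at hz

theorem one_sub_ne (hz : 0 < z.im) : 1 - z ≠ 0 := by
  intro h
  have := congrArg im h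
  rw [sub_im, one_im, zero_im] at this
  linarith

theorem one_add_ne (hz : 0 < z.im) : 1 + z ≠ 0 := by
  intro h
  have := congrArg im h
  rw [add_im, one_im, zero_im] at this
  linarith

theorem shp_0 (z : ℂ) : shp z 0 = z := rfl

theorem shp_1 (z : ℂ) : shp z 1 = 1 / (1 - z) := rfl

theorem shp_2 (z : ℂ) : shp z 2 = 1 - 1 / z := rfl

theorem shp_im_pos (hz : 0 < z.im) (c : Fin 3) : 0 < (shp z c).im := by
  have h0 : 0 < normSq z := normSq_pos.2 (up_ne hz)
  have h1 : 0 < normSq (1 - z) := normSq_pos.2 (one_sub_ne hz)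
  fin_cases c
  · exact hz
  · show 0 < (1 / (1 - z)).im
    rw [one_div, inv_im, sub_im, one_im]
    apply div_pos _ h1
    linarith
  · show 0 < (1 - 1 / z).im
    rw [sub_im, one_im, one_div, inv_im]
    have : 0 < z.im / normSq z := div_pos hz h0
    rw [neg_div]
    linarith

theorem shp_ne (hz : 0 < z.im) (c : Fin 3) : shp z c ≠ 0 := up_ne (shp_im_pos hz c)

theorem exp_lgs (hz : 0 < z.im) (c : Fin 3) : exp (lgs z c) = shp z c := by
  unfold lgs
  exact exp_log (shp_ne hz c)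

theorem lgs_im (hz : 0 < z.im) (c : Fin 3) : 0 < (lgs z c).im ∧ (lgs z c).im < Real.pi := by
  have h := shp_im_pos hz c
  unfold lgs
  rw [log_im]
  have h1 : 0 ≤ arg (shp z c) := arg_nonneg_iff.2 h.le
  have h2 : arg (shp z c) ≠ 0 := by
    intro h0
    rw [arg_eq_zero_iff] at h0
    linarith [h0.2]
  have h3 : arg (shp z c) ≠ Real.pi := by
    intro h0
    rw [arg_eq_pi_iff] at h0
    linarith [h0.2]
  exact ⟨lt_of_le_of_ne h1 (Ne.symm h2), lt_of_le_of_ne (arg_le_pi _) h3⟩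

theorem lgs_sum (hz : 0 < z.im) : lgs z 0 + lgs z 1 + lgs z 2 = Real.pi * I := by
  have h0 := up_ne hz
  have h1 := one_sub_ne hz
  have e : exp (lgs z 0 + lgs z 1 + lgs z 2) = exp (Real.pi * I) := by
    rw [exp_add, exp_add, exp_lgs hz, exp_lgs hz, exp_lgs hz, shp_0, shp_1, shp_2, exp_pi_mul_I]
    field_simp
    ring
  obtain ⟨n, hn⟩ := Complex.exp_eq_exp_iff_exists_int.1 e
  have hi := congrArg im hn
  have e2 : ((Real.pi : ℂ) * I + (n : ℂ) * (2 * Real.pi * I)).im = Real.pi + n * (2 * Real.pi) := by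
    have : (Real.pi : ℂ) * I + (n : ℂ) * (2 * Real.pi * I) =
        ((Real.pi + n * (2 * Real.pi) : ℝ) : ℂ) * I := by
      push_cast
      ring
    rw [this, im_ofReal_mul, I_im, mul_one]
  rw [e2, add_im, add_im] at hi
  have a0 := lgs_im hz 0
  have a1 := lgs_im hz 1
  have a2 := lgs_im hz 2
  have hpi := Real.pi_pos
  have n0 : n = 0 := by
    have h3 : (-1 : ℝ) < n := by
      by_contra hc
      push Not at hc
      nlinarith [a0.1, a1.1, a2.1]
    have h4 : (n : ℝ) < 1 := by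
      by_contra hc
      push Not at hc
      nlinarith [a0.2, a1.2, a2.2]
    have h5 : (-1 : ℤ) < n := by exact_mod_cast h3
    have h6 : n < (1 : ℤ) := by exact_mod_cast h4
    omega
  rw [hn, n0]
  simp

/-- Equal exponentials, near imaginary parts. -/
theorem eq_of_exp {A B : ℂ} (h : exp A = exp B) (h1 : |A.im - B.im| < 2 * Real.pi) : A = B := by
  obtain ⟨n, hn⟩ := Complex.exp_eq_exp_iff_exists_int.1 h
  have hi := congrArg im hn
  have e : ((n : ℂ) * (2 * Real.pi * I)).im = n * (2 * Real.pi) := by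
    have : (n : ℂ) * (2 * Real.pi * I) = ((n * (2 * Real.pi) : ℝ) : ℂ) * I := by
      push_cast
      ring
    rw [this, im_ofReal_mul, I_im, mul_one]
  rw [add_im, e] at hi
  have h2 := abs_lt.1 h1
  have hpi := Real.pi_pos
  have n0 : n = 0 := by
    have h3 : (-1 : ℝ) < n := by
      by_contra hc
      push Not at hc
      nlinarith
    have h4 : (n : ℝ) < 1 := by
      by_contra hc
      push Not at hc
      nlinarith
    have h5 : (-1 : ℤ) < n := by exact_mod_cast h3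
    have h6 : n < (1 : ℤ) := by exact_mod_cast h4
    omega
  rw [hn, n0]
  simp

/-- Four sums, known modulo `2 π i`, with the right total and bounds on one side. -/
theorem four_eq {S T : Fin 4 → ℂ} (hexp : ∀ k, exp (S k) = exp (T k)) (hS : ∀ k, 0 < (S k).im)
    (hT : ∀ k, (T k).im < 2 * Real.pi) (hsum : ∑ k, S k = ∑ k, T k) (k : Fin 4) : S k = T k := by
  have hpi := Real.pi_pos
  have h1 : ∀ k, ∃ n : ℤ, S k = T k + n * (2 * Real.pi * I) := fun k =>
    Complex.exp_eq_exp_iff_exists_int.1 (hexp k)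
  choose n hn using h1
  have e : ∀ n : ℤ, ((n : ℂ) * (2 * Real.pi * I)).im = n * (2 * Real.pi) := by
    intro n
    have : (n : ℂ) * (2 * Real.pi * I) = ((n * (2 * Real.pi) : ℝ) : ℂ) * I := by
      push_cast
      ring
    rw [this, im_ofReal_mul, I_im, mul_one]
  have n0 : ∀ k, 0 ≤ n k := by
    intro k
    have hi := congrArg im (hn k)
    rw [add_im, e] at hi
    have a1 := hS k
    have a2 := hT k
    have h3 : (-1 : ℝ) < n k := by
      by_contra hc
      push Not at hc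
      nlinarith
    have h5 : (-1 : ℤ) < n k := by exact_mod_cast h3
    omega
  have hs : ∑ k, n k = 0 := by
    have h2 : ∑ k, S k = ∑ k, T k + (∑ k, (n k : ℂ)) * (2 * Real.pi * I) := by
      rw [Finset.sum_mul, ← Finset.sum_add_distrib]
      exact Finset.sum_congr rfl fun k _ => hn k
    rw [hsum] at h2
    have h3 : (∑ k, (n k : ℂ)) * (2 * Real.pi * I) = 0 := by linear_combination -h2
    have h4 : (2 * Real.pi * I : ℂ) ≠ 0 := by
      have : (Real.pi : ℂ) ≠ 0 := by exact_mod_cast hpi.ne'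
      exact mul_ne_zero (mul_ne_zero two_ne_zero this) I_ne_zero
    have h5 := (mul_eq_zero.1 h3).resolve_right h4
    exact_mod_cast h5
  have hk : n k = 0 := (Finset.sum_eq_zero_iff_of_nonneg (fun k _ => n0 k)).1 hs k
    (Finset.mem_univ k)
  rw [hn k, hk]
  simp

end

/-! ### The shapes of a block -/

/-- The shapes of the eight tetrahedra of a block. -/
structure Oct (X Y : Fin 4 → ℂ) : Prop where
  pX : ∀ k, 0 < (X k).im
  pY : ∀ k, 0 < (Y k).im
  x2 : X 2 * X 0 = -1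
  x3 : X 3 * X 1 = -1
  y0 : Y 0 * (1 - X 1) = 1 + X 1
  y1 : Y 1 * (1 - X 0) = 1 + X 0
  y2 : Y 2 * (1 - X 3) = 1 + X 3
  y3 : Y 3 * (1 - X 2) = 1 + X 2

namespace Oct

variable {X Y : Fin 4 → ℂ}

theorem X2 (O : Oct X Y) : X 2 = -1 / X 0 := by
  rw [eq_div_iff (up_ne (O.pX 0))]
  exact O.x2

theorem X3 (O : Oct X Y) : X 3 = -1 / X 1 := by
  rw [eq_div_iff (up_ne (O.pX 1))]
  exact O.x3

theorem Y0 (O : Oct X Y) : Y 0 = (1 + X 1) / (1 - X 1) := by
  rw [eq_div_iff (one_sub_ne (O.pX 1))]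
  exact O.y0

theorem Y1 (O : Oct X Y) : Y 1 = (1 + X 0) / (1 - X 0) := by
  rw [eq_div_iff (one_sub_ne (O.pX 0))]
  exact O.y1

theorem Y2 (O : Oct X Y) : Y 2 = -(1 - X 1) / (1 + X 1) := by
  have h0 := up_ne (O.pX 1)
  have h1 := one_add_ne (O.pX 1)
  have h2 := one_sub_ne (O.pX 3)
  have e : Y 2 = (1 + X 3) / (1 - X 3) := by
    rw [eq_div_iff h2]
    exact O.y2
  have e2 : 1 - X 3 = (1 + X 1) / X 1 := by
    rw [O.X3]
    field_simp
    ring
  rw [e, e2, O.X3]
  field_simp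
  ring

theorem Y3 (O : Oct X Y) : Y 3 = -(1 - X 0) / (1 + X 0) := by
  have h0 := up_ne (O.pX 0)
  have h1 := one_add_ne (O.pX 0)
  have h2 := one_sub_ne (O.pX 2)
  have e : Y 3 = (1 + X 2) / (1 - X 2) := by
    rw [eq_div_iff h2]
    exact O.y3
  have e2 : 1 - X 2 = (1 + X 0) / X 0 := by
    rw [O.X2]
    field_simp
    ring
  rw [e, e2, O.X2]
  field_simp
  ring

theorem sX21 (O : Oct X Y) : shp (X 2) 1 = X 0 / (1 + X 0) := by
  have h0 := up_ne (O.pX 0)
  have h1 := one_add_ne (O.pX 0)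
  rw [shp_1, O.X2]
  have e2 : 1 - -1 / X 0 = (1 + X 0) / X 0 := by
    field_simp
    ring
  rw [e2, one_div_div]

theorem sX22 (O : Oct X Y) : shp (X 2) 2 = 1 + X 0 := by
  have h0 := up_ne (O.pX 0)
  rw [shp_2, O.X2]
  field_simp
  ring

theorem sX31 (O : Oct X Y) : shp (X 3) 1 = X 1 / (1 + X 1) := by
  have h0 := up_ne (O.pX 1)
  have h1 := one_add_ne (O.pX 1)
  rw [shp_1, O.X3]
  have e2 : 1 - -1 / X 1 = (1 + X 1) / X 1 := by
    field_simp
    ring
  rw [e2, one_div_div]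

theorem sX32 (O : Oct X Y) : shp (X 3) 2 = 1 + X 1 := by
  have h0 := up_ne (O.pX 1)
  rw [shp_2, O.X3]
  field_simp
  ring

theorem sX02 (O : Oct X Y) : shp (X 0) 2 = -(1 - X 0) / X 0 := by
  have h0 := up_ne (O.pX 0)
  rw [shp_2]
  field_simp
  ring

theorem sX12 (O : Oct X Y) : shp (X 1) 2 = -(1 - X 1) / X 1 := by
  have h0 := up_ne (O.pX 1)
  rw [shp_2]
  field_simp
  ring

theorem sY01 (O : Oct X Y) : shp (Y 0) 1 = -(1 - X 1) / (2 * X 1) := by
  have h0 := up_ne (O.pX 1)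
  have h1 := one_sub_ne (O.pX 1)
  rw [shp_1, O.Y0]
  have e2 : 1 - (1 + X 1) / (1 - X 1) = -(2 * X 1) / (1 - X 1) := by
    field_simp
    ring
  rw [e2, one_div_div, div_neg, neg_div]

theorem sY02 (O : Oct X Y) : shp (Y 0) 2 = 2 * X 1 / (1 + X 1) := by
  have h1 := one_add_ne (O.pX 1)
  rw [shp_2, O.Y0, one_div_div]
  field_simp
  ring

theorem sY11 (O : Oct X Y) : shp (Y 1) 1 = -(1 - X 0) / (2 * X 0) := by
  have h0 := up_ne (O.pX 0)
  have h1 := one_sub_ne (O.pX 0)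
  rw [shp_1, O.Y1]
  have e2 : 1 - (1 + X 0) / (1 - X 0) = -(2 * X 0) / (1 - X 0) := by
    field_simp
    ring
  rw [e2, one_div_div, div_neg, neg_div]

theorem sY12 (O : Oct X Y) : shp (Y 1) 2 = 2 * X 0 / (1 + X 0) := by
  have h1 := one_add_ne (O.pX 0)
  rw [shp_2, O.Y1, one_div_div]
  field_simp
  ring

theorem sY21 (O : Oct X Y) : shp (Y 2) 1 = (1 + X 1) / 2 := by
  have h1 := one_add_ne (O.pX 1)
  rw [shp_1, O.Y2]
  have e2 : 1 - -(1 - X 1) / (1 + X 1) = 2 / (1 + X 1) := by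
    field_simp
    ring
  rw [e2, one_div_div]

theorem sY22 (O : Oct X Y) : shp (Y 2) 2 = 2 / (1 - X 1) := by
  have h1 := one_sub_ne (O.pX 1)
  rw [shp_2, O.Y2, one_div_div]
  field_simp
  ring

theorem sY31 (O : Oct X Y) : shp (Y 3) 1 = (1 + X 0) / 2 := by
  have h1 := one_add_ne (O.pX 0)
  rw [shp_1, O.Y3]
  have e2 : 1 - -(1 - X 0) / (1 + X 0) = 2 / (1 + X 0) := by
    field_simp
    ring
  rw [e2, one_div_div]

theorem sY32 (O : Oct X Y) : shp (Y 3) 2 = 2 / (1 - X 0) := by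
  have h1 := one_sub_ne (O.pX 0)
  rw [shp_2, O.Y3, one_div_div]
  field_simp
  ring

end Oct

end Pool.Agent.AT.G
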